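import Mathlib

/-!
Equivalence relations generated by a base relation and a set of edges; number of classes.
-/

namespace Pool.Agent.U869.BL

open Finset

attribute [local instance] Classical.propDecidable

variable {V : Type*}

/-- the equivalence relation generated by `r` and `D` -/
def gen (r : Setoid V) (D : V → V → Prop) : Setoid V :=
  Relation.EqvGen.setoid (fun x y => r x y ∨ D x y)

theorem gen_base {r : Setoid V} {D : V → V → Prop} {x y : V} (h : r x y) : gen r D x y :=
  Relation.EqvGen.rel _ _ (Or.inl h)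

theorem gen_step {r : Setoid V} {D : V → V → Prop} {x y : V} (h : D x y) : gen r D x y :=
  Relation.EqvGen.rel _ _ (Or.inr h)

theorem gen_refl {r : Setoid V} {D : V → V → Prop} (x : V) : gen r D x x :=
  Relation.EqvGen.refl _

theorem gen_symm {r : Setoid V} {D : V → V → Prop} {x y : V} (h : gen r D x y) : gen r D y x :=
  Relation.EqvGen.symm _ _ h

theorem gen_trans {r : Setoid V} {D : V → V → Prop} {x y w : V} (h : gen r D x y)
    (h' : gen r D y w) : gen r D x w :=
  Relation.EqvGen.trans _ _ _ h h'

theorem gen_le {r : Setoid V} {D : V → V → Prop} {s : Setoid V} (hr : ∀ x y, r x y → s x y)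
    (hD : ∀ x y, D x y → s x y) : ∀ x y, gen r D x y → s x y := by
  intro x y h
  have : gen r D ≤ s := Setoid.eqvGen_le (fun a b h => h.elim (hr a b) (hD a b))
  exact this h

theorem gen_mono {r : Setoid V} {D D' : V → V → Prop} (h : ∀ x y, D x y → D' x y) :
    ∀ x y, gen r D x y → gen r D' x y :=
  gen_le (fun _ _ h => gen_base h) (fun x y hh => gen_step (h x y hh))

/-- local form of `gen_le` -/
theorem gen_local {r : Setoid V} {D : V → V → Prop} {Q : Setoid V} (C : V → Prop)
    (hC : ∀ a b, gen r D a b → C a → C b) (hr : ∀ a b, C a → r a b → Q a b)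
    (hD : ∀ a b, C a → D a b → Q a b) : ∀ a b, gen r D a b → C a → Q a b := by
  have key : ∀ a b, Relation.EqvGen (fun x y => r x y ∨ D x y) a b → (C a → Q a b) := by
    intro a b h
    induction h with
    | rel x y h =>
      intro hx
      rcases h with h | h
      · exact hr x y hx h
      · exact hD x y hx h
    | refl x => intro _; exact Q.refl x
    | symm x y h ih =>
      intro hy
      exact Q.symm (ih (hC y x (Relation.EqvGen.symm _ _ h) hy))
    | trans x y w h1 h2 ih1 ih2 =>
      intro hx
      exact Q.trans (ih1 hx) (ih2 (hC x y h1 hx))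
  exact key

/-- adding one edge -/
theorem add_edge {r : Setoid V} {D D' : V → V → Prop} {a b u v : V}
    (hD' : ∀ x y, D' x y → D x y ∨ (x = a ∧ y = b) ∨ (x = b ∧ y = a)) (h : gen r D' u v)
    (hn : ¬ gen r D u v) :
    (gen r D u a ∧ gen r D b v) ∨ (gen r D u b ∧ gen r D a v) := by
  let R : Setoid V := gen r D
  let R' : Setoid V :=
    { r := fun x y => R x y ∨ (R x a ∧ R b y) ∨ (R x b ∧ R a y)
      iseqv := by
        refine ⟨fun x => Or.inl (R.refl x), ?_, ?_⟩
        · intro x y h
          rcases h with h | ⟨h1, h2⟩ | ⟨h1, h2⟩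
          · exact Or.inl (R.symm h)
          · exact Or.inr (Or.inr ⟨R.symm h2, R.symm h1⟩)
          · exact Or.inr (Or.inl ⟨R.symm h2, R.symm h1⟩)
        · intro x y w h h'
          rcases h with h | ⟨h1, h2⟩ | ⟨h1, h2⟩ <;> rcases h' with h' | ⟨h3, h4⟩ | ⟨h3, h4⟩
          · exact Or.inl (R.trans h h')
          · exact Or.inr (Or.inl ⟨R.trans h h3, h4⟩)
          · exact Or.inr (Or.inr ⟨R.trans h h3, h4⟩)
          · exact Or.inr (Or.inl ⟨h1, R.trans h2 h'⟩)
          · exact Or.inl (R.trans h1 (R.trans (R.symm (R.trans h2 h3)) h4))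
          · exact Or.inl (R.trans h1 h4)
          · exact Or.inr (Or.inr ⟨h1, R.trans h2 h'⟩)
          · exact Or.inl (R.trans h1 h4)
          · exact Or.inl (R.trans h1 (R.trans (R.symm (R.trans h2 h3)) h4)) }
  have key : R' u v := by
    refine gen_le (s := R') (fun x y h => Or.inl (gen_base h)) ?_ u v h
    intro x y h
    rcases hD' x y h with h | ⟨rfl, rfl⟩ | ⟨rfl, rfl⟩
    · exact Or.inl (gen_step h)
    · exact Or.inr (Or.inl ⟨R.refl _, R.refl _⟩)
    · exact Or.inr (Or.inr ⟨R.refl _, R.refl _⟩)
  rcases key with h | h | h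
  · exact absurd h hn
  · exact Or.inl h
  · exact Or.inr h

/-- number of classes -/
noncomputable def nc (s : Setoid V) : ℕ := Nat.card (Quotient s)

variable [Finite V]

theorem nc_le {s t : Setoid V} (h : ∀ x y, s x y → t x y) : nc t ≤ nc s := by
  unfold nc
  have hs : Function.Surjective (Quotient.map' (s₁ := s) (s₂ := t) id (fun x y hh => h x y hh)) := by
    intro q
    obtain ⟨x, rfl⟩ := Quotient.exists_rep q
    exact ⟨Quotient.mk s x, rfl⟩
  exact Nat.card_le_card_of_surjective _ hs

theorem nc_lt {s t : Setoid V} (h : ∀ x y, s x y → t x y) {a b : V} (h1 : t a b)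
    (h2 : ¬ s a b) : nc t < nc s := by
  unfold nc
  have hs : Function.Surjective (Quotient.map' (s₁ := s) (s₂ := t) id (fun x y hh => h x y hh)) := by
    intro q
    obtain ⟨x, rfl⟩ := Quotient.exists_rep q
    exact ⟨Quotient.mk s x, rfl⟩
  have hi : ¬ Function.Injective
      (Quotient.map' (s₁ := s) (s₂ := t) id (fun x y hh => h x y hh)) := by
    intro hi
    have h3 : Quotient.mk s a = Quotient.mk s b := by
      apply hi
      exact Quotient.sound h1
    exact h2 (Quotient.exact h3)
  have := Fintype.ofFinite (Quotient s)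
  have := Fintype.ofFinite (Quotient t)
  rw [Nat.card_eq_fintype_card, Nat.card_eq_fintype_card]
  exact Fintype.card_lt_of_surjective_not_injective _ hs hi

theorem nc_one {s : Setoid V} (h : nc s ≤ 1) (x y : V) : s x y := by
  unfold nc at h
  have h1 : Subsingleton (Quotient s) := Finite.card_le_one_iff_subsingleton.1 h
  exact Quotient.exact (h1.elim (Quotient.mk s x) (Quotient.mk s y))

end Pool.Agent.U869.BL
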