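import Pool.Agent.U869.BLA

/-!
Matchings which connect the classes of an equivalence relation: a blossom argument.
-/

namespace Pool.Agent.U869.BL

open Finset

attribute [local instance] Classical.propDecidable

variable {V : Type*}

/-- `f` is (the partner map of) a matching with edges in `E` -/
def Mt (E : V → V → Prop) (f : V → V) : Prop :=
  (∀ x, f (f x) = x) ∧ ∀ x, f x ≠ x → E x (f x)

/-- the classes joined by the matching edges in `D` -/
def B (r : Setoid V) (f : V → V) (D : Set V) : Setoid V := gen r (fun a b => a ∈ D ∧ b = f a)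

theorem B_mono {r : Setoid V} {f : V → V} {D D' : Set V} (h : D ⊆ D') :
    ∀ x y, B r f D x y → B r f D' x y :=
  gen_mono (fun _ _ hh => ⟨h hh.1, hh.2⟩)

theorem B_step {r : Setoid V} {f : V → V} {D : Set V} {x : V} (h : x ∈ D) : B r f D x (f x) :=
  gen_step ⟨h, rfl⟩

/-- `g` is a matching which leaves `x` free, changes `f` only inside the block of `x`, and still
connects this block -/
structure Free (r : Setoid V) (E : V → V → Prop) (f : V → V) (D : Set V) (x : V) (g : V → V) :
    Prop where
  mt : Mt E g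
  fx : g x = x
  out : ∀ y, ¬ (y ∈ D ∧ B r f D x y) → g y = f y
  inn : ∀ y, y ∈ D → B r f D x y → g y ∈ D ∧ B r f D x (g y)
  con : ∀ y, B r f D x y → gen r (fun a b => a ∈ D ∧ B r f D x a ∧ b = g a) x y

/-- `D` is a set of good points -/
structure Good (r : Setoid V) (E : V → V → Prop) (f : V → V) (D : Set V) : Prop where
  un : ∀ x, f x = x → x ∈ D
  inv : ∀ x ∈ D, f x ∈ D
  free : ∀ x ∈ D, ∃ g, Free r E f D x g

section patch

variable {r : Setoid V} {E : V → V → Prop} {f : V → V} {D : Set V} {u v : V} {gu gv : V → V}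

/-- use `gu` in the block of `u`, `gv` in the block of `v`, and match `u` with `v` -/
noncomputable def pt (r : Setoid V) (f : V → V) (D : Set V) (u v : V) (gu gv : V → V) (y : V) :
    V :=
  if y = u then v else if y = v then u else
    if y ∈ D ∧ B r f D u y then gu y else if y ∈ D ∧ B r f D v y then gv y else f y

theorem pt_u : pt r f D u v gu gv u = v := by simp [pt]

theorem pt_v (h : ¬ B r f D u v) : pt r f D u v gu gv v = u := by
  have : v ≠ u := by rintro rfl; exact h ((B r f D).refl _)
  simp [pt, this]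

theorem pt_bu (h : ¬ B r f D u v) {y : V} (hy : y ∈ D) (hb : B r f D u y) (hn : y ≠ u) :
    pt r f D u v gu gv y = gu y := by
  have h1 : y ≠ v := by rintro rfl; exact h hb
  simp [pt, hn, h1, hy, hb]

theorem pt_bv (h : ¬ B r f D u v) {y : V} (hy : y ∈ D) (hb : B r f D v y) (hn : y ≠ v) :
    pt r f D u v gu gv y = gv y := by
  have h2 : ¬ B r f D u y := fun h3 => h ((B r f D).trans h3 ((B r f D).symm hb))
  have h1 : y ≠ u := by rintro rfl; exact h2 ((B r f D).refl _)
  simp [pt, hn, h1, hy, hb, h2]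

theorem pt_o (hu : u ∈ D) (hv : v ∈ D) {y : V} (h1 : ¬ (y ∈ D ∧ B r f D u y))
    (h2 : ¬ (y ∈ D ∧ B r f D v y)) : pt r f D u v gu gv y = f y := by
  have h3 : y ≠ u := by rintro rfl; exact h1 ⟨hu, (B r f D).refl _⟩
  have h4 : y ≠ v := by rintro rfl; exact h2 ⟨hv, (B r f D).refl _⟩
  unfold pt
  rw [if_neg h3, if_neg h4, if_neg h1, if_neg h2]

theorem pt_mt (hE : ∀ x y, E x y → E y x) (hf : Mt E f) (hinv : ∀ x ∈ D, f x ∈ D)
    (hu : u ∈ D) (hv : v ∈ D) (hgu : Free r E f D u gu) (hgv : Free r E f D v gv)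
    (huv : E u v) (h : ¬ B r f D u v) : Mt E (pt r f D u v gu gv) := by
  have hne : u ≠ v := by rintro rfl; exact h ((B r f D).refl _)
  -- the other points are mapped among themselves
  have back : ∀ w, ∀ y, f y ∈ D ∧ B r f D w (f y) → y ∈ D ∧ B r f D w y := by
    intro w y hy
    have h1 : y ∈ D := by
      have := hinv _ hy.1
      rwa [hf.1] at this
    exact ⟨h1, (B r f D).trans hy.2 ((B r f D).symm (B_step h1))⟩
  constructor
  · intro y
    by_cases h1 : y = u
    · subst h1; rw [pt_u, pt_v h]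
    by_cases h2 : y = v
    · subst h2; rw [pt_v h, pt_u]
    by_cases h3 : y ∈ D ∧ B r f D u y
    · rw [pt_bu h h3.1 h3.2 h1]
      obtain ⟨h4, h5⟩ := hgu.inn y h3.1 h3.2
      have h6 : gu y ≠ u := by
        intro h6
        apply h1
        rw [← hgu.mt.1 y, h6, hgu.fx]
      rw [pt_bu h h4 h5 h6, hgu.mt.1]
    by_cases h4 : y ∈ D ∧ B r f D v y
    · rw [pt_bv h h4.1 h4.2 h2]
      obtain ⟨h5, h6⟩ := hgv.inn y h4.1 h4.2
      have h7 : gv y ≠ v := by
        intro h7
        apply h2
        rw [← hgv.mt.1 y, h7, hgv.fx]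
      rw [pt_bv h h5 h6 h7, hgv.mt.1]
    rw [pt_o hu hv h3 h4, pt_o hu hv (fun h5 => h3 (back _ _ h5)) (fun h5 => h4 (back _ _ h5)),
      hf.1]
  · intro y
    by_cases h1 : y = u
    · subst h1; rw [pt_u]; intro _; exact huv
    by_cases h2 : y = v
    · subst h2; rw [pt_v h]; intro _; exact hE _ _ huv
    by_cases h3 : y ∈ D ∧ B r f D u y
    · rw [pt_bu h h3.1 h3.2 h1]; exact hgu.mt.2 y
    by_cases h4 : y ∈ D ∧ B r f D v y
    · rw [pt_bv h h4.1 h4.2 h2]; exact hgv.mt.2 y
    rw [pt_o hu hv h3 h4]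
    exact hf.2 y

theorem pt_con (hu : u ∈ D) (hgu : Free r E f D u gu) (hgv : Free r E f D v gv)
    (h : ¬ B r f D u v) (Q : Setoid V) (hr : ∀ a b, r a b → Q a b)
    (hQ : ∀ a ∈ D, B r f D u a ∨ B r f D v a → Q a (pt r f D u v gu gv a)) :
    (∀ y, B r f D u y → Q u y) ∧ (∀ y, B r f D v y → Q v y) ∧ Q u v := by
  refine ⟨?_, ?_, ?_⟩
  · intro y hy
    refine gen_le hr ?_ u y (hgu.con y hy)
    rintro a b ⟨ha, hb, rfl⟩
    by_cases h1 : a = u
    · subst h1; rw [hgu.fx]
    · have := hQ a ha (Or.inl hb)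
      rwa [pt_bu h ha hb h1] at this
  · intro y hy
    refine gen_le hr ?_ v y (hgv.con y hy)
    rintro a b ⟨ha, hb, rfl⟩
    by_cases h1 : a = v
    · subst h1; rw [hgv.fx]
    · have := hQ a ha (Or.inr hb)
      rwa [pt_bv h ha hb h1] at this
  · have := hQ u hu (Or.inl ((B r f D).refl _))
    rwa [pt_u] at this

end patch

/-- growing the good set along a minimal connecting set of matching edges -/
theorem grow {r : Setoid V} {E : V → V → Prop} (hE : ∀ x y, E x y → E y x) {f : V → V}
    (hf : Mt E f) {D X : Set V} (hD : Good r E f D) {u v : V} (hu : u ∈ D) (hv : v ∈ D)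
    (huv : E u v) (hB : ¬ B r f D u v) (hDX : D ⊆ X) (hX : ∀ x ∈ X, f x ∈ X)
    (hXuv : B r f X u v)
    (hmin : ∀ x ∈ X, x ∉ D → ¬ B r f (X \ {x, f x}) u v) : Good r E f X := by
  refine ⟨fun x hx => hDX (hD.un x hx), hX, ?_⟩
  intro x hx
  have hBB : ∀ a b, B r f D a b → B r f X a b := B_mono hDX
  by_cases hxD : x ∈ D
  · -- an old good point
    obtain ⟨g, hg⟩ := hD.free x hxD
    refine ⟨g, hg.mt, hg.fx, ?_, ?_, ?_⟩
    · intro y hy
      exact hg.out y (fun h => hy ⟨hDX h.1, hBB _ _ h.2⟩)
    · intro y hy1 hy2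
      by_cases h : y ∈ D ∧ B r f D x y
      · obtain ⟨h1, h2⟩ := hg.inn y h.1 h.2
        exact ⟨hDX h1, hBB _ _ h2⟩
      · rw [hg.out y h]
        exact ⟨hX y hy1, (B r f X).trans hy2 (B_step hy1)⟩
    · intro y hy
      let Q : Setoid V := gen r (fun a b => a ∈ X ∧ B r f X x a ∧ b = g a)
      have hQ : ∀ a b, B r f X a b → B r f X x a → Q a b := by
        refine gen_local (fun a => B r f X x a) ?_ ?_ ?_
        · intro a b hab hxa
          exact (B r f X).trans hxa hab
        · intro a b _ hab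
          exact gen_base hab
        · rintro a b hxa ⟨ha, rfl⟩
          by_cases h : a ∈ D ∧ B r f D x a
          · have h1 : ∀ w, B r f D x w → Q x w := by
              intro w hw
              refine gen_mono ?_ x w (hg.con w hw)
              rintro c d ⟨h3, h4, h5⟩
              exact ⟨hDX h3, hBB _ _ h4, h5⟩
            have h2 : B r f D x (f a) := (B r f D).trans h.2 (B_step h.1)
            exact Q.trans (Q.symm (h1 a h.2)) (h1 _ h2)
          · have : g a = f a := hg.out a h
            rw [← this]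
            exact gen_step ⟨ha, hxa, rfl⟩
      exact hQ x y hy ((B r f X).refl x)
  · -- an end of a newly added edge
    have hfx : f x ∉ D := by
      intro h
      have := hD.inv _ h
      rw [hf.1] at this
      exact hxD this
    have hne : f x ≠ x := fun h => hxD (hD.un x h)
    obtain ⟨gu, hgu⟩ := hD.free u hu
    obtain ⟨gv, hgv⟩ := hD.free v hv
    let X' : Set V := X \ {x, f x}
    have hX'X : X' ⊆ X := Set.sdiff_subset
    have hmem' : ∀ a, a ∈ X' ↔ a ∈ X ∧ a ≠ x ∧ a ≠ f x := by
      intro a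
      simp only [X', Set.mem_sdiff, Set.mem_insert_iff, Set.mem_singleton_iff, not_or]
    have hn : ¬ B r f X' u v := hmin x hx hxD
    have hfXx : f x ∈ X := hX x hx
    have hsplit : (B r f X' u x ∧ B r f X' (f x) v) ∨ (B r f X' u (f x) ∧ B r f X' x v) := by
      refine add_edge (D' := fun a b => a ∈ X ∧ b = f a) ?_ hXuv hn
      rintro a b ⟨ha, rfl⟩
      by_cases h1 : a = x
      · right; left; exact ⟨h1, by rw [h1]⟩
      by_cases h2 : a = f x
      · right; right; exact ⟨h2, by rw [h2, hf.1]⟩
      left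
      exact ⟨(hmem' a).2 ⟨ha, h1, h2⟩, rfl⟩
    have hB'X : ∀ a b, B r f X' a b → B r f X a b := B_mono hX'X
    have hxfx : B r f X x (f x) := B_step hx
    have hxu : B r f X x u := by
      rcases hsplit with h | h
      · exact (B r f X).symm (hB'X _ _ h.1)
      · exact (B r f X).trans hxfx ((B r f X).symm (hB'X _ _ h.1))
    have hxv : B r f X x v := (B r f X).trans hxu hXuv
    let h := pt r f D u v gu gv
    have hmt : Mt E h := pt_mt hE hf hD.inv hu hv hgu hgv huv hB
    have hh0 : ∀ y, y ∉ D → h y = f y := fun y hy => pt_o hu hv (fun h => hy h.1) (fun h => hy h.1)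
    let g : V → V := fun y => if y = x ∨ y = f x then y else h y
    have g1 : g x = x := by simp [g]
    have g2 : g (f x) = f x := by simp [g]
    have g3 : ∀ y, y ≠ x → y ≠ f x → g y = h y := by
      intro y h1 h2
      simp [g, h1, h2]
    have g4 : ∀ y ∈ D, g y = h y := by
      intro y hy
      exact g3 y (by rintro rfl; exact hxD hy) (by rintro rfl; exact hfx hy)
    have hx' : h x = f x := hh0 x hxD
    have hfx' : h (f x) = x := by rw [hh0 _ hfx, hf.1]
    refine ⟨g, ⟨?_, ?_⟩, g1, ?_, ?_, ?_⟩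
    · intro y
      by_cases h1 : y = x
      · rw [h1, g1, g1]
      by_cases h2 : y = f x
      · rw [h2, g2, g2]
      rw [g3 y h1 h2, g3 (h y), hmt.1]
      · intro h3
        apply h2
        rw [← hmt.1 y, h3, hx']
      · intro h3
        apply h1
        rw [← hmt.1 y, h3, hfx']
    · intro y
      by_cases h1 : y = x
      · rw [h1, g1]; intro h; exact absurd rfl h
      by_cases h2 : y = f x
      · rw [h2, g2]; intro h; exact absurd rfl h
      rw [g3 y h1 h2]
      exact hmt.2 y
    · intro y hy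
      have h1 : y ≠ x := by rintro rfl; exact hy ⟨hx, (B r f X).refl _⟩
      have h2 : y ≠ f x := by rintro rfl; exact hy ⟨hfXx, hxfx⟩
      rw [g3 y h1 h2]
      apply pt_o hu hv
      · intro h3
        exact hy ⟨hDX h3.1, (B r f X).trans hxu (hBB _ _ h3.2)⟩
      · intro h3
        exact hy ⟨hDX h3.1, (B r f X).trans hxv (hBB _ _ h3.2)⟩
    · intro y hy1 hy2
      by_cases h1 : y = x
      · rw [h1, g1]; exact ⟨hx, (B r f X).refl _⟩
      by_cases h2 : y = f x
      · rw [h2, g2]; exact ⟨hfXx, hxfx⟩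
      rw [g3 y h1 h2]
      by_cases h3 : y = u
      · rw [h3]
        change pt r f D u v gu gv u ∈ X ∧ B r f X x (pt r f D u v gu gv u)
        rw [pt_u]; exact ⟨hDX hv, hxv⟩
      by_cases h4 : y = v
      · rw [h4]
        change pt r f D u v gu gv v ∈ X ∧ B r f X x (pt r f D u v gu gv v)
        rw [pt_v hB]; exact ⟨hDX hu, hxu⟩
      by_cases h5 : y ∈ D ∧ B r f D u y
      · have e : h y = gu y := pt_bu hB h5.1 h5.2 h3
        rw [e]
        obtain ⟨h6, h7⟩ := hgu.inn y h5.1 h5.2
        exact ⟨hDX h6, (B r f X).trans hxu (hBB _ _ h7)⟩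
      by_cases h6 : y ∈ D ∧ B r f D v y
      · have e : h y = gv y := pt_bv hB h6.1 h6.2 h4
        rw [e]
        obtain ⟨h6, h7⟩ := hgv.inn y h6.1 h6.2
        exact ⟨hDX h6, (B r f X).trans hxv (hBB _ _ h7)⟩
      have e : h y = f y := pt_o hu hv h5 h6
      rw [e]
      exact ⟨hX y hy1, (B r f X).trans hy2 (B_step hy1)⟩
    · intro y hy
      let Q : Setoid V := gen r (fun a b => a ∈ X ∧ B r f X x a ∧ b = g a)
      have hQr : ∀ a b, r a b → Q a b := fun a b hab => gen_base hab
      have hQg : ∀ a, a ∈ X → B r f X x a → Q a (g a) := fun a h1 h2 => gen_step ⟨h1, h2, rfl⟩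
      obtain ⟨c1, c2, c3⟩ := pt_con (v := v) hu hgu hgv hB Q hQr (by
        intro a ha hab
        have h1 : B r f X x a := by
          rcases hab with hab | hab
          · exact (B r f X).trans hxu (hBB _ _ hab)
          · exact (B r f X).trans hxv (hBB _ _ hab)
        have h2 := hQg a (hDX ha) h1
        rwa [g4 a ha] at h2)
      -- steps of `f` away from `x`
      have hstep : ∀ a, a ∈ X' → B r f X x a → Q a (f a) := by
        intro a ha hxa
        by_cases h5 : a ∈ D ∧ B r f D u a
        · exact Q.trans (Q.symm (c1 a h5.2)) (c1 _ ((B r f D).trans h5.2 (B_step h5.1)))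
        by_cases h6 : a ∈ D ∧ B r f D v a
        · exact Q.trans (Q.symm (c2 a h6.2)) (c2 _ ((B r f D).trans h6.2 (B_step h6.1)))
        have h7 := (hmem' a).1 ha
        have e : g a = f a := by
          rw [g3 a h7.2.1 h7.2.2]
          exact pt_o hu hv h5 h6
        rw [← e]
        exact hQg a h7.1 hxa
      have hQ' : ∀ a b, B r f X' a b → B r f X x a → Q a b := by
        refine gen_local (fun a => B r f X x a) ?_ ?_ ?_
        · intro a b hab hxa
          exact (B r f X).trans hxa (hB'X _ _ hab)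
        · intro a b _ hab
          exact hQr a b hab
        · rintro a b hxa ⟨ha, rfl⟩
          exact hstep a ha hxa
      have hQx : Q x (f x) := by
        rcases hsplit with h1 | h1
        · have h2 : Q u x := hQ' u x h1.1 hxu
          have h3 : Q (f x) v := hQ' (f x) v h1.2 hxfx
          exact Q.trans (Q.symm h2) (Q.trans c3 (Q.symm h3))
        · have h2 : Q u (f x) := hQ' u (f x) h1.1 hxu
          have h3 : Q x v := hQ' x v h1.2 ((B r f X).refl _)
          exact Q.trans h3 (Q.trans (Q.symm c3) h2)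
      have hQ : ∀ a b, B r f X a b → B r f X x a → Q a b := by
        refine gen_local (fun a => B r f X x a) ?_ ?_ ?_
        · intro a b hab hxa
          exact (B r f X).trans hxa hab
        · intro a b _ hab
          exact hQr a b hab
        · rintro a b hxa ⟨ha, rfl⟩
          by_cases h1 : a = x
          · rw [h1]; exact hQx
          by_cases h2 : a = f x
          · rw [h2, hf.1]; exact Q.symm hQx
          exact hstep a ((hmem' a).2 ⟨ha, h1, h2⟩) hxa
      exact hQ x y hy ((B r f X).refl x)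

end Pool.Agent.U869.BL
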