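import Pool.Agent.U869.BLB

/-!
A connecting matching exists if deleting the edges at few points leaves few classes.
-/

namespace Pool.Agent.U869.BL

open Finset

attribute [local instance] Classical.propDecidable

variable {V : Type*}

theorem B_univ {r : Setoid V} {f : V → V} (x y : V) :
    B r f Set.univ x y ↔ gen r (fun a b => b = f a) x y := by
  constructor
  · exact gen_mono (fun a b h => h.2) x y
  · exact gen_mono (fun a b h => ⟨trivial, h⟩) x y

theorem measure_lt {a b c d N : ℕ} (h : a < b) (hc : c ≤ N) :
    a * (N + 1) + c < b * (N + 1) + d := by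
  have : (a + 1) * (N + 1) ≤ b * (N + 1) := Nat.mul_le_mul_right _ h
  have e : (a + 1) * (N + 1) = a * (N + 1) + (N + 1) := by ring
  omega

variable [Finite V]

/-- the number of classes joined by all matching edges -/
noncomputable def kp (r : Setoid V) (f : V → V) : ℕ := nc (B r f Set.univ)

noncomputable def mu (r : Setoid V) (f : V → V) : ℕ :=
  kp r f * (Nat.card V + 1) + {x | f x ≠ x}.ncard

theorem supp_le (f : V → V) : {x | f x ≠ x}.ncard ≤ Nat.card V := by
  rw [← Set.ncard_univ]
  exact Set.ncard_le_ncard (Set.subset_univ _)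

theorem indep {r : Setoid V} {E : V → V → Prop} {f : V → V} (hf : Mt E f)
    (hmin : ∀ g, Mt E g → mu r f ≤ mu r g) {a : V} (ha : f a ≠ a) :
    ¬ B r f ({a, f a}ᶜ : Set V) a (f a) := by
  intro h
  let g : V → V := fun y => if y = a ∨ y = f a then y else f y
  have g1 : g a = a := by simp [g]
  have g2 : g (f a) = f a := by simp [g]
  have g3 : ∀ y, y ≠ a → y ≠ f a → g y = f y := by
    intro y h1 h2
    simp [g, h1, h2]
  have hg : Mt E g := by
    constructor
    · intro y
      by_cases h1 : y = a
      · rw [h1, g1, g1]
      by_cases h2 : y = f a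
      · rw [h2, g2, g2]
      rw [g3 y h1 h2, g3 (f y), hf.1]
      · intro h3
        apply h2
        rw [← hf.1 y, h3]
      · intro h3
        apply h1
        rw [← hf.1 y, h3, hf.1]
    · intro y
      by_cases h1 : y = a
      · rw [h1, g1]; intro h; exact absurd rfl h
      by_cases h2 : y = f a
      · rw [h2, g2]; intro h; exact absurd rfl h
      rw [g3 y h1 h2]
      exact hf.2 y
  have hle : ∀ x y, B r f Set.univ x y → B r g Set.univ x y := by
    have h0 : ∀ x y, B r f ({a, f a}ᶜ : Set V) x y → B r g Set.univ x y := by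
      refine gen_mono ?_
      rintro x y ⟨hx, rfl⟩
      simp only [Set.mem_compl_iff, Set.mem_insert_iff, Set.mem_singleton_iff, not_or] at hx
      exact ⟨trivial, (g3 x hx.1 hx.2).symm⟩
    refine gen_le (fun x y hxy => gen_base hxy) ?_
    rintro x y ⟨-, rfl⟩
    by_cases h1 : x = a
    · rw [h1]; exact h0 _ _ h
    by_cases h2 : x = f a
    · rw [h2, hf.1]; exact (B r g Set.univ).symm (h0 _ _ h)
    rw [← g3 x h1 h2]
    exact B_step trivial
  have h1 : kp r g ≤ kp r f := nc_le hle
  have h2 : {x | g x ≠ x}.ncard < {x | f x ≠ x}.ncard := by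
    refine Set.ncard_lt_ncard ⟨?_, ?_⟩ (Set.toFinite _)
    · intro x hx
      have h3 : x ≠ a := by rintro rfl; exact hx g1
      have h4 : x ≠ f a := by rintro rfl; exact hx g2
      have : g x ≠ x := hx
      rw [g3 x h3 h4] at this
      exact this
    · intro hsub
      have h3 : a ∈ {x | g x ≠ x} := hsub ha
      exact h3 g1
  have h3 := hmin g hg
  unfold mu at h3
  have h4 : kp r g * (Nat.card V + 1) ≤ kp r f * (Nat.card V + 1) := Nat.mul_le_mul_right _ h1
  omega

theorem count {r : Setoid V} {E : V → V → Prop} {f : V → V} (hf : Mt E f)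
    (hmin : ∀ g, Mt E g → mu r f ≤ mu r g) {D : Set V} (hD : ∀ x, f x = x → x ∈ D) (n : ℕ) :
    ∀ X : Set V, D ⊆ X → (∀ x ∈ X, f x ∈ X) → (Xᶜ).ncard = n →
      2 * kp r f + n ≤ 2 * nc (B r f X) := by
  induction n using Nat.strong_induction_on with
  | _ n ih =>
    intro X hDX hX hn
    by_cases h0 : X = Set.univ
    · subst h0
      rw [Set.compl_univ, Set.ncard_empty] at hn
      subst hn
      unfold kp
      omega
    · obtain ⟨a, ha⟩ := (Set.ne_univ_iff_exists_notMem X).1 h0
      have hfa : f a ∉ X := by
        intro h
        have := hX _ h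
        rw [hf.1] at this
        exact ha this
      have hne : f a ≠ a := fun h => ha (hDX (hD a h))
      let X' : Set V := insert a (insert (f a) X)
      have hXX' : X ⊆ X' := fun x hx => Or.inr (Or.inr hx)
      have hX'inv : ∀ x ∈ X', f x ∈ X' := by
        rintro x (rfl | rfl | hx)
        · exact Or.inr (Or.inl rfl)
        · left; exact hf.1 _
        · exact hXX' (hX x hx)
      have hc1 : (Xᶜ : Set V) = insert a (insert (f a) (X'ᶜ)) := by
        ext y
        simp only [X', Set.mem_compl_iff, Set.mem_insert_iff, not_or]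
        constructor
        · intro hy
          by_cases h1 : y = a
          · exact Or.inl h1
          by_cases h2 : y = f a
          · exact Or.inr (Or.inl h2)
          exact Or.inr (Or.inr ⟨h1, h2, hy⟩)
        · rintro (h1 | h1 | h1)
          · rw [h1]; exact ha
          · rw [h1]; exact hfa
          · exact h1.2.2
      have hc2 : (Xᶜ).ncard = (X'ᶜ).ncard + 2 := by
        rw [hc1, Set.ncard_insert_of_notMem, Set.ncard_insert_of_notMem]
        · simp [X']
        · simp only [X', Set.mem_compl_iff, Set.mem_insert_iff, not_or, not_and, not_not]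
          exact ⟨fun h => hne h.symm, fun h => absurd trivial h⟩
      have h1 := ih ((X'ᶜ).ncard) (by omega) X' (hDX.trans hXX') hX'inv rfl
      have h2 : nc (B r f X') < nc (B r f X) := by
        refine nc_lt (a := a) (b := f a) (B_mono hXX') (B_step (Or.inl rfl)) ?_
        intro h3
        apply indep hf hmin hne
        refine B_mono ?_ _ _ h3
        intro y hy
        simp only [Set.mem_compl_iff, Set.mem_insert_iff, Set.mem_singleton_iff, not_or]
        exact ⟨by rintro rfl; exact ha hy, by rintro rfl; exact hfa hy⟩
      omega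

/-- **Connecting matchings.** If for every set `S` of points the number `c(S)` of classes which
remain when the edges at `S` are not used satisfies `c(S) ≤ |S| / 2 + 1`, then some matching
connects everything. -/
theorem exists_matching (r : Setoid V) (E : V → V → Prop) (hE : ∀ x y, E x y → E y x)
    (hcut : ∀ S : Set V, 2 * nc (gen r (fun x y => E x y ∧ x ∉ S ∧ y ∉ S)) ≤ S.ncard + 2) :
    ∃ f, Mt E f ∧ ∀ x y, gen r (fun a b => b = f a) x y := by
  have hfin : ({f : V → V | Mt E f}).Finite := Set.toFinite _
  have hne : ({f : V → V | Mt E f}).Nonempty := ⟨id, fun x => rfl, fun x h => absurd rfl h⟩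
  obtain ⟨f, hf, hmin⟩ := Set.exists_min_image _ (mu r) hfin hne
  have hf : Mt E f := hf
  have hmin : ∀ g, Mt E g → mu r f ≤ mu r g := hmin
  refine ⟨f, hf, ?_⟩
  -- a maximal good set
  have hgfin : ({D : Set V | Good r E f D}).Finite := Set.toFinite _
  have hgne : ({D : Set V | Good r E f D}).Nonempty := by
    refine ⟨{x | f x = x}, fun x h => h, ?_, ?_⟩
    · intro x hx
      change f (f x) = f x
      rw [hx]; exact hx
    · intro x hx
      refine ⟨f, hf, hx, fun y _ => rfl, ?_, ?_⟩
      · intro y hy hb
        have hy : f y = y := hy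
        rw [hy]; exact ⟨hy, hb⟩
      · intro y hy
        refine gen_le (fun a b h => gen_base h) ?_ x y hy
        rintro a b ⟨ha, rfl⟩
        have ha : f a = a := ha
        rw [ha]
  obtain ⟨D, hD, hmax⟩ := Set.exists_max_image _ Set.ncard hgfin hgne
  have hD : Good r E f D := hD
  have hmax : ∀ D', Good r E f D' → D'.ncard ≤ D.ncard := hmax
  have claim : ∀ u v, u ∈ D → v ∈ D → E u v → B r f D u v := by
    intro u v hu hv huv
    by_contra hB
    by_cases h : B r f Set.univ u v
    · -- grow
      have hxfin : ({X : Set V | D ⊆ X ∧ (∀ x ∈ X, f x ∈ X) ∧ B r f X u v}).Finite :=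
        Set.toFinite _
      have hxne : ({X : Set V | D ⊆ X ∧ (∀ x ∈ X, f x ∈ X) ∧ B r f X u v}).Nonempty :=
        ⟨Set.univ, Set.subset_univ _, fun x _ => trivial, h⟩
      obtain ⟨X, ⟨hDX, hX, hXuv⟩, hXmin⟩ := Set.exists_min_image _ Set.ncard hxfin hxne
      have hgood : Good r E f X := by
        refine grow hE hf hD hu hv huv hB hDX hX hXuv ?_
        intro x hx hxD h3
        have hfx : f x ∉ D := by
          intro h
          have := hD.inv _ h
          rw [hf.1] at this
          exact hxD this
        have h4 := hXmin (X \ {x, f x}) ⟨?_, ?_, h3⟩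
        · have h5 : (X \ {x, f x}).ncard < X.ncard := by
            refine Set.ncard_lt_ncard ⟨Set.sdiff_subset, ?_⟩ (Set.toFinite _)
            intro hsub
            have := hsub hx
            simp at this
          omega
        · intro y hy
          refine ⟨hDX hy, ?_⟩
          rintro (rfl | rfl)
          · exact hxD hy
          · exact hfx hy
        · rintro y ⟨hy1, hy2⟩
          refine ⟨hX y hy1, ?_⟩
          intro hy3
          apply hy2
          rcases hy3 with hy3 | hy3
          · right
            change y = f x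
            rw [← hf.1 y, hy3]
          · left
            have hy3 : f y = f x := hy3
            rw [← hf.1 y, hy3, hf.1]
      have h5 : X.ncard ≤ D.ncard := hmax X hgood
      have h6 : X = D := (Set.eq_of_subset_of_ncard_le hDX h5).symm
      rw [h6] at hXuv
      exact hB hXuv
    · -- augment
      obtain ⟨gu, hgu⟩ := hD.free u hu
      obtain ⟨gv, hgv⟩ := hD.free v hv
      let g := pt r f D u v gu gv
      have hmt : Mt E g := pt_mt hE hf hD.inv hu hv hgu hgv huv hB
      obtain ⟨c1, c2, c3⟩ := pt_con (v := v) hu hgu hgv hB (B r g Set.univ)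
        (fun a b hab => gen_base hab) (fun a _ _ => B_step trivial)
      have hle : ∀ x y, B r f Set.univ x y → B r g Set.univ x y := by
        refine gen_le (fun x y hxy => gen_base hxy) ?_
        rintro x y ⟨-, rfl⟩
        by_cases h5 : x ∈ D ∧ B r f D u x
        · exact (B r g Set.univ).trans ((B r g Set.univ).symm (c1 x h5.2))
            (c1 _ ((B r f D).trans h5.2 (B_step h5.1)))
        by_cases h6 : x ∈ D ∧ B r f D v x
        · exact (B r g Set.univ).trans ((B r g Set.univ).symm (c2 x h6.2))
            (c2 _ ((B r f D).trans h6.2 (B_step h6.1)))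
        have e : g x = f x := pt_o hu hv h5 h6
        rw [← e]
        exact B_step trivial
      have hlt : kp r g < kp r f := nc_lt hle c3 h
      have h7 := hmin g hmt
      unfold mu at h7
      have h8 := measure_lt (d := {x | f x ≠ x}.ncard) hlt (supp_le g)
      omega
  -- count
  have h1 := count hf hmin hD.un ((Dᶜ).ncard) D (le_refl _) hD.inv rfl
  have h2 := hcut (Dᶜ)
  have h3 : nc (B r f D) ≤ nc (gen r (fun x y => E x y ∧ x ∉ Dᶜ ∧ y ∉ Dᶜ)) := by
    apply nc_le
    refine gen_le (fun x y hxy => gen_base hxy) ?_
    rintro x y ⟨hxy, hx, hy⟩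
    simp only [Set.mem_compl_iff, not_not] at hx hy
    exact claim x y hx hy hxy
  have h4 : kp r f ≤ 1 := by omega
  intro x y
  rw [← B_univ]
  exact nc_one h4 x y

end Pool.Agent.U869.BL
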