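import Mathlib

/-!
Edge cuts of Cayley graphs along unions of cosets of a subgroup.
-/

namespace Pool.Agent.U869.Cut

open Finset

attribute [local instance] Classical.propDecidable

set_option linter.unusedSectionVars false

variable {G : Type*} [Group G] [Finite G]

theorem closed_closure {U : Set G} {S : Set G} (h : ∀ s ∈ S, ∀ g ∈ U, g * s ∈ U) :
    ∀ x ∈ Subgroup.closure S, ∀ g ∈ U, g * x ∈ U := by
  intro x hx
  induction hx using Subgroup.closure_induction with
  | mem x hx => exact h x hx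
  | one => intro g hg; rwa [mul_one]
  | mul x y _ _ hx hy =>
    intro g hg
    rw [← mul_assoc]
    exact hy _ (hx g hg)
  | inv x _ hx =>
    intro g hg
    have hpow : ∀ n : ℕ, ∀ g ∈ U, g * x ^ n ∈ U := by
      intro n
      induction n with
      | zero => intro g hg; simpa using hg
      | succ n ih =>
        intro g hg
        rw [pow_succ, ← mul_assoc]
        exact hx _ (ih g hg)
    have e : x⁻¹ = x ^ (orderOf x - 1) := by
      rw [inv_eq_iff_mul_eq_one, ← pow_succ', Nat.sub_add_cancel (orderOf_pos x),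
        pow_orderOf_eq_one]
    rw [e]
    exact hpow _ g hg

/-- the steps `g → g t` which leave `P` -/
def Out (P : Set G) (t : G) : Set G := {g | g ∈ P ∧ g * t ∉ P}

theorem card_translate (P : Set G) (a : G) : {g | a⁻¹ * g ∈ P}.ncard = P.ncard := by
  have e : {g | a⁻¹ * g ∈ P} = (fun g => a * g) '' P := by
    ext g
    simp only [Set.mem_ofPred_eq, Set.mem_image]
    constructor
    · intro h
      exact ⟨_, h, by group⟩
    · rintro ⟨x, hx, rfl⟩
      simpa using hx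
  rw [e, Set.ncard_image_of_injective _ (mul_right_injective a)]

theorem card_translate_right (P : Set G) (t : G) : {g | g * t ∈ P}.ncard = P.ncard := by
  have e : {g | g * t ∈ P} = (fun g => g * t⁻¹) '' P := by
    ext g
    simp only [Set.mem_ofPred_eq, Set.mem_image]
    constructor
    · intro h
      exact ⟨_, h, by group⟩
    · rintro ⟨x, hx, rfl⟩
      simpa using hx
  rw [e, Set.ncard_image_of_injective _ (mul_left_injective t⁻¹)]

/-- as many steps enter `P` as leave it -/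
theorem balance (P : Set G) (t : G) : {g | g ∉ P ∧ g * t ∈ P}.ncard = (Out P t).ncard := by
  have h1 : ({g | g ∈ P ∧ g * t ∈ P} ∪ Out P t).ncard =
      {g | g ∈ P ∧ g * t ∈ P}.ncard + (Out P t).ncard := by
    refine Set.ncard_union_eq ?_ (Set.toFinite _) (Set.toFinite _)
    rw [Set.disjoint_left]
    rintro g ⟨_, h2⟩ ⟨_, h3⟩
    exact h3 h2
  have h2 : ({g | g ∈ P ∧ g * t ∈ P} ∪ {g | g ∉ P ∧ g * t ∈ P}).ncard =
      {g | g ∈ P ∧ g * t ∈ P}.ncard + {g | g ∉ P ∧ g * t ∈ P}.ncard := by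
    refine Set.ncard_union_eq ?_ (Set.toFinite _) (Set.toFinite _)
    rw [Set.disjoint_left]
    rintro g ⟨h1, _⟩ ⟨h3, _⟩
    exact h3 h1
  have e1 : {g | g ∈ P ∧ g * t ∈ P} ∪ Out P t = P := by
    ext g
    simp only [Out, Set.mem_union, Set.mem_ofPred_eq]
    tauto
  have e2 : {g | g ∈ P ∧ g * t ∈ P} ∪ {g | g ∉ P ∧ g * t ∈ P} = {g | g * t ∈ P} := by
    ext g
    simp only [Set.mem_union, Set.mem_ofPred_eq]
    tauto
  rw [e1] at h1
  rw [e2, card_translate_right] at h2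
  omega

theorem submod (P Q : Set G) (t : G) :
    (Out (P ∩ Q) t).ncard + (Out (P ∪ Q) t).ncard ≤ (Out P t).ncard + (Out Q t).ncard := by
  have h1 := Set.ncard_union_add_ncard_inter (Out (P ∩ Q) t) (Out (P ∪ Q) t)
  have h2 := Set.ncard_union_add_ncard_inter (Out P t) (Out Q t)
  have h3 : (Out (P ∩ Q) t ∪ Out (P ∪ Q) t).ncard ≤ (Out P t ∪ Out Q t).ncard := by
    refine Set.ncard_le_ncard ?_ (Set.toFinite _)
    intro g hg
    simp only [Out, Set.mem_union, Set.mem_inter_iff, Set.mem_ofPred_eq] at hg ⊢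
    tauto
  have h4 : (Out (P ∩ Q) t ∩ Out (P ∪ Q) t).ncard ≤ (Out P t ∩ Out Q t).ncard := by
    refine Set.ncard_le_ncard ?_ (Set.toFinite _)
    intro g hg
    simp only [Out, Set.mem_union, Set.mem_inter_iff, Set.mem_ofPred_eq] at hg ⊢
    tauto
  omega

theorem measure_lt {a b c d N : ℕ} (h : a < b) (hc : c ≤ N) :
    a * (N + 1) + c < b * (N + 1) + d := by
  have : (a + 1) * (N + 1) ≤ b * (N + 1) := Nat.mul_le_mul_right _ h
  have e : (a + 1) * (N + 1) = a * (N + 1) + (N + 1) := by ring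
  omega

/-- If `P` is a union of left cosets of `H` and is not invariant under `t`, then at least `|H|`
steps `g → g t` leave `P`. -/
theorem single (H : Subgroup G) (t : G) (P : Set G) (hP : ∀ h ∈ H, ∀ g ∈ P, g * h ∈ P)
    (ht : (Out P t).Nonempty) : Nat.card H ≤ (Out P t).ncard := by
  let F : Set (Set G) := {P | (∀ h ∈ H, ∀ g ∈ P, g * h ∈ P) ∧ (Out P t).Nonempty}
  let m : Set G → ℕ := fun P => (Out P t).ncard * (Nat.card G + 1) + P.ncard
  obtain ⟨Q, ⟨hQ, hQt⟩, hmin⟩ := Set.exists_min_image F m (Set.toFinite _) ⟨P, hP, ht⟩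
  have hcard : ∀ P : Set G, P.ncard ≤ Nat.card G := by
    intro P
    rw [← Set.ncard_univ]
    exact Set.ncard_le_ncard (Set.subset_univ _)
  have m1 : ∀ P ∈ F, (Out Q t).ncard ≤ (Out P t).ncard := by
    intro P hP
    by_contra h
    have h1 : m P < m Q := measure_lt (by omega) (hcard P)
    have h2 := hmin P hP
    omega
  have m2 : ∀ P ∈ F, (Out P t).ncard ≤ (Out Q t).ncard → Q.ncard ≤ P.ncard := by
    intro P hP h
    have h1 := hmin P hP
    have h2 : (Out P t).ncard * (Nat.card G + 1) ≤ (Out Q t).ncard * (Nat.card G + 1) :=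
      Nat.mul_le_mul_right _ h
    simp only [m] at h1
    omega
  obtain ⟨p, hp, hpt⟩ := hQt
  let B : Subgroup G := Subgroup.closure ((H : Set G) ∪ {t})
  have hHB : ∀ h ∈ H, h ∈ B := fun h hh => Subgroup.subset_closure (Or.inl hh)
  have htB : t ∈ B := Subgroup.subset_closure (Or.inr rfl)
  let C : Set G := {g | p⁻¹ * g ∈ B}
  have hC : ∀ b ∈ B, ∀ g, g * b ∈ C ↔ g ∈ C := by
    intro b hb g
    simp only [C, Set.mem_ofPred_eq, ← mul_assoc]
    exact Subgroup.mul_mem_cancel_right B hb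
  have hpC : p ∈ C := by
    change p⁻¹ * p ∈ B
    rw [inv_mul_cancel]; exact B.one_mem
  -- closed subsets of `C`
  have full : ∀ U : Set G, (∀ h ∈ H, ∀ g ∈ U, g * h ∈ U) → ¬ (Out U t).Nonempty →
      (∃ g ∈ U, g ∈ C) → C ⊆ U := by
    rintro U h1 h2 ⟨g, hg, hgC⟩ x hx
    have h3 : ∀ s ∈ (H : Set G) ∪ {t}, ∀ g ∈ U, g * s ∈ U := by
      rintro s (hs | hs) g hg
      · exact h1 s hs g hg
      · rw [Set.mem_singleton_iff] at hs
        subst hs
        by_contra h4
        exact h2 ⟨g, hg, h4⟩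
    have h5 : g⁻¹ * x ∈ B := by
      have : g⁻¹ * x = (p⁻¹ * g)⁻¹ * (p⁻¹ * x) := by group
      rw [this]
      exact B.mul_mem (B.inv_mem hgC) hx
    have h6 := closed_closure h3 _ h5 g hg
    rwa [mul_inv_cancel_left] at h6
  -- `Q` lies in one coset of `B`
  have hQC : Q ⊆ C := by
    have h1 : Q ∩ C ∈ F := by
      refine ⟨?_, ⟨p, ⟨hp, hpC⟩, fun h => hpt h.1⟩⟩
      rintro h hh g ⟨h2, h3⟩
      exact ⟨hQ h hh g h2, (hC h (hHB h hh) g).2 h3⟩
    have h2 : (Out (Q ∩ C) t).ncard ≤ (Out Q t).ncard := by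
      refine Set.ncard_le_ncard ?_ (Set.toFinite _)
      rintro g ⟨⟨h3, h4⟩, h5⟩
      exact ⟨h3, fun h6 => h5 ⟨h6, (hC t htB g).2 h4⟩⟩
    have h3 := m2 _ h1 h2
    have h4 : Q ∩ C = Q := Set.eq_of_subset_of_ncard_le Set.inter_subset_left h3
    rw [← h4]
    exact Set.inter_subset_right
  have hQne : ¬ C ⊆ Q := by
    intro h
    exact hpt (h ((hC t htB p).2 hpC))
  -- the complement
  have hhalf : 2 * Q.ncard ≤ C.ncard := by
    have h1 : C \ Q ∈ F := by
      refine ⟨?_, ?_⟩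
      · rintro h hh g ⟨h2, h3⟩
        refine ⟨(hC h (hHB h hh) g).2 h2, fun h4 => h3 ?_⟩
        have := hQ h⁻¹ (H.inv_mem hh) _ h4
        rwa [mul_inv_cancel_right] at this
      · have h2 : 0 < {g | g ∉ Q ∧ g * t ∈ Q}.ncard := by
          rw [balance]
          exact (Set.ncard_pos).2 ⟨p, hp, hpt⟩
        obtain ⟨g, hg1, hg2⟩ := (Set.ncard_pos).1 h2
        exact ⟨g, ⟨(hC t htB g).1 (hQC hg2), hg1⟩, fun h => h.2 hg2⟩
    have h2 : (Out (C \ Q) t).ncard ≤ (Out Q t).ncard := by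
      rw [← balance Q t]
      refine Set.ncard_le_ncard ?_ (Set.toFinite _)
      rintro g ⟨⟨h3, h4⟩, h5⟩
      refine ⟨h4, ?_⟩
      by_contra h6
      exact h5 ⟨(hC t htB g).2 h3, h6⟩
    have h3 := m2 _ h1 h2
    have h4 := Set.ncard_sdiff_add_ncard_of_subset hQC
    omega
  -- translates are equal or disjoint
  have block : ∀ a : G, (∃ g ∈ Q, a⁻¹ * g ∈ Q) → {g | a⁻¹ * g ∈ Q} = Q := by
    rintro a ⟨g₀, hg₀, hag₀⟩
    by_contra hne
    set Q' : Set G := {g | a⁻¹ * g ∈ Q} with hQ'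
    have hcQ' : Q'.ncard = Q.ncard := card_translate Q a
    have hoQ' : (Out Q' t).ncard = (Out Q t).ncard := by
      rw [← card_translate (Out Q t) a]
      congr 1
      ext g
      simp only [Out, Q', Set.mem_ofPred_eq, mul_assoc]
    have hinvQ' : ∀ h ∈ H, ∀ g ∈ Q', g * h ∈ Q' := by
      intro h hh g hg
      change a⁻¹ * (g * h) ∈ Q
      rw [← mul_assoc]
      exact hQ h hh _ hg
    have hQ'C : Q' ⊆ C := by
      intro g hg
      have h1 : p⁻¹ * g₀ ∈ B := hQC hg₀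
      have h2 : p⁻¹ * (a⁻¹ * g₀) ∈ B := hQC hag₀
      have h3 : p⁻¹ * (a⁻¹ * g) ∈ B := hQC hg
      change p⁻¹ * g ∈ B
      have e : p⁻¹ * g = (p⁻¹ * g₀) * (p⁻¹ * (a⁻¹ * g₀))⁻¹ * (p⁻¹ * (a⁻¹ * g)) := by group
      rw [e]
      exact B.mul_mem (B.mul_mem h1 (B.inv_mem h2)) h3
    have hui := Set.ncard_union_add_ncard_inter Q Q'
    have hIlt : (Q ∩ Q').ncard < Q.ncard := by
      by_contra h
      have h1 : Q ∩ Q' = Q := Set.eq_of_subset_of_ncard_le Set.inter_subset_left (by omega)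
      have h2 : Q ⊆ Q' := by rw [← h1]; exact Set.inter_subset_right
      exact hne (Set.eq_of_subset_of_ncard_le h2 (by omega)).symm
    have hIpos : 0 < (Q ∩ Q').ncard := (Set.ncard_pos).2 ⟨g₀, hg₀, hag₀⟩
    have hIF : Q ∩ Q' ∈ F := by
      have hin : ∀ h ∈ H, ∀ g ∈ Q ∩ Q', g * h ∈ Q ∩ Q' := fun h hh g hg =>
        ⟨hQ h hh g hg.1, hinvQ' h hh g hg.2⟩
      refine ⟨hin, ?_⟩
      by_contra h1
      have h2 := full _ hin h1 ⟨g₀, ⟨hg₀, hag₀⟩, hQC hg₀⟩
      exact hQne (h2.trans Set.inter_subset_left)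
    have hUF : Q ∪ Q' ∈ F := by
      have hin : ∀ h ∈ H, ∀ g ∈ Q ∪ Q', g * h ∈ Q ∪ Q' := by
        rintro h hh g (hg | hg)
        · exact Or.inl (hQ h hh g hg)
        · exact Or.inr (hinvQ' h hh g hg)
      refine ⟨hin, ?_⟩
      by_contra h1
      have h2 := full _ hin h1 ⟨g₀, Or.inl hg₀, hQC hg₀⟩
      have h3 : C.ncard ≤ (Q ∪ Q').ncard := Set.ncard_le_ncard h2
      omega
    have h1 := submod Q Q' t
    have h2 := m1 _ hUF
    have h3 := m1 _ hIF
    have h4 := m2 _ hIF (by omega)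
    omega
  -- hence all steps from `Q` leave `Q`
  have hOut : Out Q t = Q := by
    apply Set.Subset.antisymm (fun g hg => hg.1)
    intro g hg
    refine ⟨hg, fun h => hpt ?_⟩
    have h1 : {x | (p * g⁻¹)⁻¹ * x ∈ Q} = Q := by
      apply block
      refine ⟨p, hp, ?_⟩
      have : (p * g⁻¹)⁻¹ * p = g := by group
      rwa [this]
    have h2 : p * t ∈ {x | (p * g⁻¹)⁻¹ * x ∈ Q} := by
      change (p * g⁻¹)⁻¹ * (p * t) ∈ Q
      have : (p * g⁻¹)⁻¹ * (p * t) = g * t := by group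
      rwa [this]
    rwa [h1] at h2
  have hH : Nat.card H ≤ Q.ncard := by
    have h1 : {g | p⁻¹ * g ∈ (H : Set G)} ⊆ Q := by
      intro g hg
      have := hQ _ hg p hp
      rwa [mul_inv_cancel_left] at this
    have h2 := Set.ncard_le_ncard h1
    rw [card_translate] at h2
    exact h2
  have h5 := m1 P ⟨hP, ht⟩
  rw [hOut] at h5
  omega

end Pool.Agent.U869.Cut
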