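import Pool.Agent.U869.CutA
import Pool.Agent.U869.BLC

/-!
The number of classes of cosets which remain when the edges at few points are not used.
-/

namespace Pool.Agent.U869.Cut

open Finset Pool.Agent.U869.BL

attribute [local instance] Classical.propDecidable

set_option linter.unusedSectionVars false

variable {G : Type*} [Group G] [Finite G]

theorem pow_arith (n k : ℕ) (h : k < n) : n ≤ (n - k) * 2 ^ k := by
  obtain ⟨m, rfl⟩ : ∃ m, n = k + 1 + m := ⟨n - (k + 1), by omega⟩
  have h1 : k + 1 ≤ 2 ^ k := Nat.lt_two_pow_self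
  have e : k + 1 + m - k = m + 1 := by omega
  rw [e]
  calc k + 1 + m ≤ (m + 1) * (k + 1) := by nlinarith
    _ ≤ (m + 1) * 2 ^ k := Nat.mul_le_mul_left _ h1

theorem card_chain (K : Subgroup G) (T : Finset G)
    (hirr : ∀ t ∈ T, t ∉ Subgroup.closure ((K : Set G) ∪ ((T.erase t : Finset G) : Set G)))
    (J : Finset G) : J ⊆ T →
    2 ^ J.card * Nat.card K ≤ Nat.card (Subgroup.closure ((K : Set G) ∪ (J : Set G))) := by
  induction J using Finset.induction_on with
  | empty =>
    intro _
    rw [Finset.card_empty, pow_zero, one_mul]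
    apply Subgroup.card_le_of_le
    intro x hx
    exact Subgroup.subset_closure (Or.inl hx)
  | insert t J ht ih =>
    intro hJ
    have hJT : J ⊆ T := fun x hx => hJ (Finset.mem_insert_of_mem hx)
    have h1 := ih hJT
    set H1 := Subgroup.closure ((K : Set G) ∪ (J : Set G)) with hH1
    set H2 := Subgroup.closure ((K : Set G) ∪ ((insert t J : Finset G) : Set G)) with hH2
    have hle : H1 ≤ H2 := by
      apply Subgroup.closure_mono
      rintro x (hx | hx)
      · exact Or.inl hx
      · exact Or.inr (by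
          rw [Finset.coe_insert]
          exact Or.inr hx)
    have ht2 : t ∈ H2 := Subgroup.subset_closure (Or.inr (by
      rw [Finset.coe_insert]
      exact Or.inl rfl))
    have ht1 : t ∉ H1 := by
      intro h
      apply hirr t (hJ (Finset.mem_insert_self t J))
      refine Subgroup.closure_mono ?_ h
      rintro x (hx | hx)
      · exact Or.inl hx
      · refine Or.inr ?_
        rw [Finset.mem_coe, Finset.mem_erase]
        refine ⟨?_, hJT hx⟩
        rintro rfl
        exact ht hx
    have hne : Nat.card H1 ≠ Nat.card H2 := by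
      intro h
      have : H1 = H2 := Subgroup.eq_of_le_of_card_ge hle h.ge
      exact ht1 (this ▸ ht2)
    obtain ⟨k, hk⟩ := Subgroup.card_dvd_of_le hle
    have hpos : 0 < Nat.card H2 := Nat.card_pos
    have hk2 : 2 ≤ k := by
      by_contra h
      have : k = 0 ∨ k = 1 := by omega
      rcases this with rfl | rfl
      · omega
      · exact hne (by omega)
    rw [Finset.card_insert_of_notMem ht, pow_succ]
    calc 2 ^ J.card * 2 * Nat.card K = 2 * (2 ^ J.card * Nat.card K) := by ring
      _ ≤ 2 * Nat.card H1 := Nat.mul_le_mul_left _ h1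
      _ ≤ k * Nat.card H1 := Nat.mul_le_mul_right _ hk2
      _ = Nat.card H2 := by rw [hk]; ring

/-- If `T` generates the group together with `K`, and no element of `T` can be left out, then
at least `|T| |K|` steps leave a proper nonempty union of left cosets of `K`. -/
theorem multi (K : Subgroup G) (T : Finset G)
    (hgen : Subgroup.closure ((K : Set G) ∪ (T : Set G)) = ⊤)
    (hirr : ∀ t ∈ T, t ∉ Subgroup.closure ((K : Set G) ∪ ((T.erase t : Finset G) : Set G)))
    (P : Set G) (hP : ∀ h ∈ K, ∀ g ∈ P, g * h ∈ P) (hne : P.Nonempty) (hpr : ∃ g, g ∉ P) :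
    T.card * Nat.card K ≤ ∑ t ∈ T, (Out P t).ncard := by
  let J : Finset G := T.filter (fun t => ∀ g ∈ P, g * t ∈ P)
  have hJT : J ⊆ T := Finset.filter_subset _ _
  let H : Subgroup G := Subgroup.closure ((K : Set G) ∪ (J : Set G))
  have hPH : ∀ h ∈ H, ∀ g ∈ P, g * h ∈ P := by
    apply closed_closure
    rintro s (hs | hs)
    · exact hP s hs
    · exact (Finset.mem_filter.1 hs).2
  have hlt : J.card < T.card := by
    apply Finset.card_lt_card
    refine ⟨hJT, ?_⟩
    intro h
    have hJ : J = T := Finset.Subset.antisymm hJT h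
    have hH : H = ⊤ := by
      change Subgroup.closure ((K : Set G) ∪ (J : Set G)) = ⊤
      rw [hJ]; exact hgen
    obtain ⟨g, hg⟩ := hne
    obtain ⟨x, hx⟩ := hpr
    apply hx
    have := hPH (g⁻¹ * x) (by rw [hH]; exact Subgroup.mem_top _) g hg
    rwa [mul_inv_cancel_left] at this
  have h1 : ∀ t ∈ T \ J, Nat.card H ≤ (Out P t).ncard := by
    intro t ht
    rw [Finset.mem_sdiff] at ht
    apply single H t P hPH
    by_contra h
    apply ht.2
    refine Finset.mem_filter.2 ⟨ht.1, ?_⟩
    intro g hg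
    by_contra h2
    exact h ⟨g, hg, h2⟩
  have h2 := card_chain K T hirr J hJT
  have h3 : (T \ J).card = T.card - J.card := Finset.card_sdiff_of_subset hJT
  calc T.card * Nat.card K ≤ ((T.card - J.card) * 2 ^ J.card) * Nat.card K :=
        Nat.mul_le_mul_right _ (pow_arith _ _ hlt)
    _ = (T.card - J.card) * (2 ^ J.card * Nat.card K) := by ring
    _ ≤ (T.card - J.card) * Nat.card H := Nat.mul_le_mul_left _ h2
    _ = ∑ t ∈ T \ J, Nat.card H := by rw [Finset.sum_const, h3, smul_eq_mul]
    _ ≤ ∑ t ∈ T \ J, (Out P t).ncard := Finset.sum_le_sum h1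
    _ ≤ ∑ t ∈ T, (Out P t).ncard :=
        Finset.sum_le_sum_of_subset_of_nonneg Finset.sdiff_subset (fun _ _ _ => Nat.zero_le _)

/-- points of `G ⧸ ⟨z⟩` in the same left coset of `K` -/
def cls (z : G) (K : Subgroup G) (h : Subgroup.zpowers z ≤ K) :
    Setoid (G ⧸ Subgroup.zpowers z) :=
  Setoid.ker (Subgroup.quotientMapOfLE h)

theorem cls_iff {z : G} {K : Subgroup G} {h : Subgroup.zpowers z ≤ K} {a b : G} :
    cls z K h (a : G ⧸ Subgroup.zpowers z) (b : G ⧸ Subgroup.zpowers z) ↔ a⁻¹ * b ∈ K := by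
  unfold cls
  rw [Setoid.ker_def, Subgroup.quotientMapOfLE_apply_mk, Subgroup.quotientMapOfLE_apply_mk,
    QuotientGroup.eq]

/-- joined by an element of `T` -/
def ed (z : G) (T : Finset G) (x y : G ⧸ Subgroup.zpowers z) : Prop :=
  ∃ g t : G, (t ∈ T ∨ t⁻¹ ∈ T) ∧ x = (g : G ⧸ Subgroup.zpowers z) ∧
    y = ((g * t : G) : G ⧸ Subgroup.zpowers z)

theorem ed_symm {z : G} {T : Finset G} : ∀ x y, ed z T x y → ed z T y x := by
  rintro x y ⟨g, t, ht, rfl, rfl⟩
  refine ⟨g * t, t⁻¹, ?_, rfl, ?_⟩
  · rw [inv_inv]; exact ht.symm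
  · rw [mul_inv_cancel_right]

theorem condition (z : G) (hz2 : z * z = 1) (hz1 : z ≠ 1) (K : Subgroup G)
    (hzK : Subgroup.zpowers z ≤ K) (h8 : 8 ≤ Nat.card K) (T : Finset G)
    (hgen : Subgroup.closure ((K : Set G) ∪ (T : Set G)) = ⊤)
    (hirr : ∀ t ∈ T, t ∉ Subgroup.closure ((K : Set G) ∪ ((T.erase t : Finset G) : Set G)))
    (S : Set (G ⧸ Subgroup.zpowers z)) :
    2 * nc (gen (cls z K hzK) (fun x y => ed z T x y ∧ x ∉ S ∧ y ∉ S)) ≤ S.ncard + 2 := by
  have hFG : Fintype G := Fintype.ofFinite G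
  set R := gen (cls z K hzK) (fun x y => ed z T x y ∧ x ∉ S ∧ y ∉ S) with hR
  by_cases hc : nc R ≤ 1
  · omega
  have hFQ : Fintype (Quotient R) := Fintype.ofFinite _
  let pr : G → Quotient R := fun g => Quotient.mk R (g : G ⧸ Subgroup.zpowers z)
  have hcard : nc R = Fintype.card (Quotient R) := Nat.card_eq_fintype_card
  have hsurj : Function.Surjective pr := by
    intro q
    obtain ⟨v, rfl⟩ := Quotient.exists_rep q
    obtain ⟨g, rfl⟩ := QuotientGroup.mk_surjective v
    exact ⟨g, rfl⟩
  have hK : ∀ g, ∀ h ∈ K, pr (g * h) = pr g := by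
    intro g h hh
    apply Quotient.sound
    apply gen_base
    rw [cls_iff, mul_inv_rev, inv_mul_cancel_right]
    exact K.inv_mem hh
  -- `T` is not empty
  have hT : 0 < T.card := by
    rw [Finset.card_pos]
    by_contra h
    rw [Finset.not_nonempty_iff_eq_empty] at h
    subst h
    apply hc
    have hK' : ∀ x : G, x ∈ K := by
      intro x
      have h1 : x ∈ Subgroup.closure ((K : Set G) ∪ ((∅ : Finset G) : Set G)) := by
        rw [hgen]; exact Subgroup.mem_top x
      rw [Finset.coe_empty, Set.union_empty, Subgroup.closure_eq] at h1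
      exact h1
    rw [hcard, Fintype.card_le_one_iff]
    intro a b
    obtain ⟨g, rfl⟩ := hsurj a
    obtain ⟨g', rfl⟩ := hsurj b
    have := hK g (g⁻¹ * g') (hK' _)
    rw [mul_inv_cancel_left] at this
    exact this.symm
  -- the cut bound for every class
  have hq : ∀ q : Quotient R, T.card * Nat.card K ≤ ∑ t ∈ T, (Out {g | pr g = q} t).ncard := by
    intro q
    apply multi K T hgen hirr
    · intro h hh g hg
      change pr (g * h) = q
      rw [hK g h hh]; exact hg
    · obtain ⟨g, hg⟩ := hsurj q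
      exact ⟨g, hg⟩
    · by_contra h
      push Not at h
      apply hc
      rw [hcard, Fintype.card_le_one_iff]
      intro a b
      obtain ⟨g, rfl⟩ := hsurj a
      obtain ⟨g', rfl⟩ := hsurj b
      have h1 : pr g = q := h g
      have h2 : pr g' = q := h g'
      rw [h1, h2]
  -- summation
  have hsum : ∀ t ∈ T, ∑ q : Quotient R, (Out {g | pr g = q} t).ncard ≤ 4 * S.ncard := by
    intro t ht
    have h1 : (Finset.univ.filter (fun g : G => pr g ≠ pr (g * t))).card =
        ∑ q : Quotient R, (Out {g | pr g = q} t).ncard := by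
      rw [Finset.card_eq_sum_card_fiberwise (f := pr) (t := Finset.univ)
        (fun x _ => Finset.mem_univ _)]
      refine Finset.sum_congr rfl (fun q _ => ?_)
      rw [← Set.ncard_coe_finset]
      congr 1
      ext g
      simp only [Out, Finset.coe_filter, Finset.mem_filter, Finset.mem_univ, true_and,
        Set.mem_ofPred_eq]
      constructor
      · rintro ⟨h1, h2⟩
        exact ⟨h2, fun h3 => h1 (by rw [h2, h3])⟩
      · rintro ⟨h1, h2⟩
        exact ⟨fun h3 => h2 (by rw [← h3, h1]), h1⟩
    rw [← h1]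
    have hpre : ∀ S' : Set (G ⧸ Subgroup.zpowers z),
        ((QuotientGroup.mk : G → G ⧸ Subgroup.zpowers z) ⁻¹' S').ncard = 2 * S'.ncard := by
      intro S'
      have h2 := QuotientGroup.card_preimage_mk (Subgroup.zpowers z) S'
      rw [Nat.card_coe_set_eq, Nat.card_coe_set_eq] at h2
      rw [h2, Nat.card_zpowers, orderOf_eq_prime (p := 2) (by rw [pow_two]; exact hz2) hz1]
    have h2 : ((Finset.univ.filter (fun g : G => pr g ≠ pr (g * t)) : Finset G) : Set G) ⊆
        ((QuotientGroup.mk : G → G ⧸ Subgroup.zpowers z) ⁻¹' S) ∪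
        {g | g * t ∈ ((QuotientGroup.mk : G → G ⧸ Subgroup.zpowers z) ⁻¹' S)} := by
      intro g hg
      simp only [Finset.coe_filter, Finset.mem_univ, true_and, Set.mem_ofPred_eq] at hg
      by_contra h
      simp only [Set.mem_union, not_or] at h
      apply hg
      apply Quotient.sound
      apply gen_step
      exact ⟨⟨g, t, Or.inl ht, rfl, rfl⟩, h.1, h.2⟩
    have h3 := Set.ncard_le_ncard h2 (Set.toFinite _)
    have h4 := Set.ncard_union_le ((QuotientGroup.mk : G → G ⧸ Subgroup.zpowers z) ⁻¹' S)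
      {g | g * t ∈ ((QuotientGroup.mk : G → G ⧸ Subgroup.zpowers z) ⁻¹' S)}
    rw [card_translate_right, hpre] at h4
    rw [Set.ncard_coe_finset] at h3
    omega
  have htot : Fintype.card (Quotient R) * (T.card * Nat.card K) ≤ T.card * (4 * S.ncard) := by
    calc Fintype.card (Quotient R) * (T.card * Nat.card K)
        = ∑ q : Quotient R, T.card * Nat.card K := by
          rw [Finset.sum_const, smul_eq_mul]; rfl
      _ ≤ ∑ q : Quotient R, ∑ t ∈ T, (Out {g | pr g = q} t).ncard :=
          Finset.sum_le_sum (fun q _ => hq q)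
      _ = ∑ t ∈ T, ∑ q : Quotient R, (Out {g | pr g = q} t).ncard := Finset.sum_comm
      _ ≤ ∑ t ∈ T, 4 * S.ncard := Finset.sum_le_sum hsum
      _ = T.card * (4 * S.ncard) := by rw [Finset.sum_const, smul_eq_mul]
  have h1 : Fintype.card (Quotient R) * Nat.card K ≤ 4 * S.ncard := by
    have e : Fintype.card (Quotient R) * (T.card * Nat.card K) =
        T.card * (Fintype.card (Quotient R) * Nat.card K) := by ring
    rw [e] at htot
    exact Nat.le_of_mul_le_mul_left htot hT
  have h2 : Fintype.card (Quotient R) * 8 ≤ Fintype.card (Quotient R) * Nat.card K :=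
    Nat.mul_le_mul_left _ h8
  rw [hcard]
  omega

end Pool.Agent.U869.Cut
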