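import Pool.Agent.U869.CutB
import Pool.Agent.R759.HCFinal

/-!
Merging closed listings of the cosets of `K` along a connecting matching.
-/

namespace Pool.Agent.U869.Mg

open Pool.Agent.R759.HC Pool.Agent.U869.BL Pool.Agent.U869.Cut

attribute [local instance] Classical.propDecidable

set_option linter.unusedSectionVars false

variable {G : Type*} [Group G] [Finite G]

theorem mk_mul_z (z g : G) : ((g * z : G) : G ⧸ Subgroup.zpowers z) = (g : G ⧸ Subgroup.zpowers z) := by
  rw [eq_comm, QuotientGroup.eq, inv_mul_cancel_left]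
  exact Subgroup.mem_zpowers z

theorem merge_along (A : Set G) (hA : ∀ x ∈ A, x⁻¹ ∈ A) (z : G) (hz2 : z * z = 1)
    (K : Subgroup G) (hzK : Subgroup.zpowers z ≤ K) (τ : Equiv.Perm G)
    (hτ : CycOn A (K : Set G) τ) (hthru : ∀ k ∈ K, τ k = k * z ∨ τ (k * z) = k)
    (T : Finset G) (hTA : ∀ t ∈ T, t ∈ A) (hTz : ∀ t ∈ T, t * z = z * t)
    (f : G ⧸ Subgroup.zpowers z → G ⧸ Subgroup.zpowers z) (hf : Mt (ed z T) f)
    (hcon : ∀ x y, gen (cls z K hzK) (fun a b => b = f a) x y) :
    ∃ σ, CycOn A (Set.univ : Set G) σ := by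
  have hzz : z ∈ K := hzK (Subgroup.mem_zpowers z)
  have hz' : z⁻¹ = z := inv_eq_of_mul_eq_one_left hz2
  -- orientation
  obtain ⟨τ', hτ', hthru', hτz⟩ : ∃ τ' : Equiv.Perm G, CycOn A (K : Set G) τ' ∧
      (∀ k ∈ K, τ' k = k * z ∨ τ' (k * z) = k) ∧ τ' z = 1 := by
    rcases hthru 1 K.one_mem with h | h
    · refine ⟨τ⁻¹, CycOn.inv hA hτ, ?_, ?_⟩
      · intro k hk
        rcases hthru k hk with h1 | h1
        · right
          rw [Equiv.Perm.inv_eq_iff_eq, h1]
        · left
          rw [Equiv.Perm.inv_eq_iff_eq, h1]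
      · rw [Equiv.Perm.inv_eq_iff_eq, h, one_mul]
    · refine ⟨τ, hτ, hthru, ?_⟩
      rwa [one_mul] at h
  let F : Set (Set (G ⧸ Subgroup.zpowers z)) := {W | (∀ x y, cls z K hzK x y → x ∈ W → y ∈ W) ∧
    W.Nonempty ∧ ∃ σ, CycOn A {g : G | (g : G ⧸ Subgroup.zpowers z) ∈ W} σ ∧
      ∀ g : G, (g : G ⧸ Subgroup.zpowers z) ∈ W → f (g : G ⧸ Subgroup.zpowers z) ∉ W →
        σ g = g * z ∨ σ (g * z) = g}
  have hF : F.Nonempty := by
    refine ⟨{x | cls z K hzK ((1 : G) : G ⧸ Subgroup.zpowers z) x}, ?_, ?_, τ, ?_, ?_⟩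
    · intro x y hxy hx
      exact (cls z K hzK).trans hx hxy
    · exact ⟨_, (cls z K hzK).refl _⟩
    · have e : {g : G | (g : G ⧸ Subgroup.zpowers z) ∈
          {x | cls z K hzK ((1 : G) : G ⧸ Subgroup.zpowers z) x}} = (K : Set G) := by
        ext g
        change cls z K hzK ((1 : G) : G ⧸ Subgroup.zpowers z) (g : G ⧸ Subgroup.zpowers z) ↔ g ∈ K
        rw [cls_iff, inv_one, one_mul]
      rw [e]; exact hτ
    · intro g hg _
      apply hthru
      have hg : cls z K hzK ((1 : G) : G ⧸ Subgroup.zpowers z) (g : G ⧸ Subgroup.zpowers z) := hg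
      rw [cls_iff, inv_one, one_mul] at hg
      exact hg
  obtain ⟨W, ⟨hWc, ⟨w0, hw0⟩, σ, hσ, hσt⟩, hmax⟩ :=
    Set.exists_max_image F Set.ncard (Set.toFinite _) hF
  by_cases hall : ∀ x ∈ W, f x ∈ W
  · have hW : ∀ y, y ∈ W := by
      intro y
      let s : Setoid (G ⧸ Subgroup.zpowers z) :=
        { r := fun a b => a ∈ W ↔ b ∈ W
          iseqv := ⟨fun _ => Iff.rfl, fun h => h.symm, fun h h' => h.trans h'⟩ }
      have h1 : s w0 y := by
        refine gen_le (s := s) ?_ ?_ w0 y (hcon w0 y)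
        · intro a b hab
          exact ⟨hWc a b hab, hWc b a ((cls z K hzK).symm hab)⟩
        · rintro a b rfl
          refine ⟨hall a, fun h => ?_⟩
          have := hall _ h
          rwa [hf.1] at this
      exact h1.1 hw0
    refine ⟨σ, ?_⟩
    have e : {g : G | (g : G ⧸ Subgroup.zpowers z) ∈ W} = Set.univ := by
      ext g
      exact ⟨fun _ => trivial, fun _ => hW _⟩
    rwa [e] at hσ
  · exfalso
    push Not at hall
    obtain ⟨x, hxW, hfx⟩ := hall
    have hne : f x ≠ x := fun h => hfx (by rw [h]; exact hxW)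
    obtain ⟨g, t, hgt, hgx, hgy⟩ : ∃ g t : G, (t ∈ A ∧ t * z = z * t) ∧
        (g : G ⧸ Subgroup.zpowers z) = x ∧ ((g * t : G) : G ⧸ Subgroup.zpowers z) = f x ∧
        σ g = g * z := by
      obtain ⟨g, t, ht, hx, hy⟩ := hf.2 x hne
      have htA : t ∈ A ∧ t * z = z * t := by
        rcases ht with ht | ht
        · exact ⟨hTA t ht, hTz t ht⟩
        · refine ⟨?_, ?_⟩
          · have := hA _ (hTA _ ht)
            rwa [inv_inv] at this
          · have h1 := hTz _ ht
            have h2 : t * (t⁻¹ * z) * t = t * (z * t⁻¹) * t := by rw [h1]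
            have h3 : z * t = t * z := by
              calc z * t = t * (t⁻¹ * z) * t := by group
                _ = t * (z * t⁻¹) * t := h2
                _ = t * z := by group
            exact h3.symm
      have h1 := hσt g (by rw [← hx]; exact hxW) (by rw [← hx]; exact hfx)
      rcases h1 with h1 | h1
      · exact ⟨g, t, htA, hx.symm, hy.symm, h1⟩
      · refine ⟨g * z, t, htA, ?_, ?_, ?_⟩
        · rw [mk_mul_z, hx]
        · rw [mul_assoc, ← htA.2, ← mul_assoc, mk_mul_z, hy]
        · rw [h1, mul_assoc, hz2, mul_one]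
    obtain ⟨hgy, hσg⟩ := hgy
    obtain ⟨htA, htz⟩ := hgt
    set b : G := g * t with hb
    have hσ2 := hτ'.translate b
    set σ2 : Equiv.Perm G := Equiv.mulLeft b * τ' * (Equiv.mulLeft b)⁻¹ with hσ2def
    have ap : ∀ w, σ2 w = b * τ' (b⁻¹ * w) := by
      intro w
      simp [hσ2def, Equiv.Perm.mul_apply]
    have hyW : (b : G ⧸ Subgroup.zpowers z) ∉ W := by rw [hgy]; exact hfx
    have hdisj : ∀ w, w ∈ {g : G | (g : G ⧸ Subgroup.zpowers z) ∈ W} →
        w ∉ {x | b⁻¹ * x ∈ (K : Set G)} := by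
      intro w hw hw2
      apply hyW
      have h1 : cls z K hzK (b : G ⧸ Subgroup.zpowers z) (w : G ⧸ Subgroup.zpowers z) := by
        rw [cls_iff]; exact hw2
      exact hWc _ _ ((cls z K hzK).symm h1) hw
    have hgU : g ∈ {g : G | (g : G ⧸ Subgroup.zpowers z) ∈ W} := by
      change (g : G ⧸ Subgroup.zpowers z) ∈ W
      rw [hgx]; exact hxW
    have hbzU : b * z ∈ {x | b⁻¹ * x ∈ (K : Set G)} := by
      change b⁻¹ * (b * z) ∈ K
      rw [inv_mul_cancel_left]; exact hzz
    have hσ2b : σ2 (b * z) = b := by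
      rw [ap, inv_mul_cancel_left, hτz, mul_one]
    have s1 : g⁻¹ * b ∈ A := by
      rw [hb, inv_mul_cancel_left]; exact htA
    have s2 : (b * z)⁻¹ * σ g ∈ A := by
      have e : (b * z)⁻¹ * σ g = t⁻¹ := by
        rw [hσg, hb, mul_assoc, htz]
        group
      rw [e]
      exact hA _ htA
    obtain ⟨hm, ha1, ha2⟩ := CycOn.merge hσ hσ2 hdisj hgU hbzU hσ2b s1 s2
    set σ' := σ * σ2 * Equiv.swap g (b * z) with hσ'
    let W' : Set (G ⧸ Subgroup.zpowers z) :=
      W ∪ {v | cls z K hzK (b : G ⧸ Subgroup.zpowers z) v}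
    have hU : {g : G | (g : G ⧸ Subgroup.zpowers z) ∈ W} ∪ {x | b⁻¹ * x ∈ (K : Set G)} =
        {g : G | (g : G ⧸ Subgroup.zpowers z) ∈ W'} := by
      ext w
      change ((w : G ⧸ Subgroup.zpowers z) ∈ W ∨ b⁻¹ * w ∈ K) ↔
        ((w : G ⧸ Subgroup.zpowers z) ∈ W ∨
          cls z K hzK (b : G ⧸ Subgroup.zpowers z) (w : G ⧸ Subgroup.zpowers z))
      rw [cls_iff]
    have hW'F : W' ∈ F := by
      refine ⟨?_, ⟨w0, Or.inl hw0⟩, σ', ?_, ?_⟩
      · rintro a c hac (ha | ha)
        · exact Or.inl (hWc a c hac ha)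
        · exact Or.inr ((cls z K hzK).trans ha hac)
      · rw [← hU]; exact hm
      · intro w hw hfw
        rcases hw with hw | hw
        · have hwx : (w : G ⧸ Subgroup.zpowers z) ≠ x := by
            intro h
            apply hfw
            rw [h, ← hgy]
            exact Or.inr ((cls z K hzK).refl _)
          have h1 : w ≠ g := by
            rintro rfl
            exact hwx hgx
          have h2 : w * z ≠ g := by
            intro h
            apply hwx
            rw [← hgx, ← h, mk_mul_z]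
          have hwzU : w * z ∈ {g : G | (g : G ⧸ Subgroup.zpowers z) ∈ W} := by
            change ((w * z : G) : G ⧸ Subgroup.zpowers z) ∈ W
            rw [mk_mul_z]; exact hw
          rw [ha1 w hw h1, ha1 _ hwzU h2]
          exact hσt w hw (fun h => hfw (Or.inl h))
        · have hwy : (w : G ⧸ Subgroup.zpowers z) ≠ (b : G ⧸ Subgroup.zpowers z) := by
            intro h
            apply hfw
            rw [h, hgy, hf.1]
            exact Or.inl hxW
          have h1 : w ≠ b * z := by
            intro h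
            apply hwy
            rw [h, mk_mul_z]
          have h2 : w * z ≠ b * z := by
            intro h
            apply hwy
            rw [mul_right_cancel h]
          have hwK : b⁻¹ * w ∈ K := cls_iff.1 hw
          have hwU : w ∈ {x | b⁻¹ * x ∈ (K : Set G)} := hwK
          have hwzU : w * z ∈ {x | b⁻¹ * x ∈ (K : Set G)} := by
            change b⁻¹ * (w * z) ∈ K
            rw [← mul_assoc]
            exact K.mul_mem hwK hzz
          rw [ha2 w hwU h1, ha2 _ hwzU h2, ap, ap, ← mul_assoc]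
          rcases hthru' _ hwK with h3 | h3
          · left
            rw [h3]; group
          · right
            rw [h3]; group
    have h1 := hmax W' hW'F
    have h2 : W.ncard < W'.ncard := by
      refine Set.ncard_lt_ncard ⟨fun a ha => Or.inl ha, ?_⟩ (Set.toFinite _)
      intro h
      exact hyW (h (Or.inr ((cls z K hzK).refl _)))
    omega

/-- **Main theorem.** -/
theorem main (A : Set G) (hA : ∀ x ∈ A, x⁻¹ ∈ A) (z : G) (hz2 : z * z = 1) (hz1 : z ≠ 1)
    (K : Subgroup G) (hzK : z ∈ K) (h8 : 8 ≤ Nat.card K) (τ : Equiv.Perm G)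
    (hτ : CycOn A (K : Set G) τ) (hthru : ∀ k ∈ K, τ k = k * z ∨ τ (k * z) = k)
    (hgen : Subgroup.closure ((K : Set G) ∪ {t | t ∈ A ∧ t * z = z * t}) = ⊤) :
    ∃ σ, CycOn A (Set.univ : Set G) σ := by
  have hFG : Fintype G := Fintype.ofFinite G
  have hzK' : Subgroup.zpowers z ≤ K := by
    rw [Subgroup.zpowers_le]; exact hzK
  -- a smallest set of generators
  let F : Set (Finset G) := {T | (∀ t ∈ T, t ∈ A ∧ t * z = z * t) ∧
    Subgroup.closure ((K : Set G) ∪ (T : Set G)) = ⊤}
  have hF : F.Nonempty := by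
    refine ⟨Finset.univ.filter (fun t => t ∈ A ∧ t * z = z * t), ?_, ?_⟩
    · intro t ht
      exact (Finset.mem_filter.1 ht).2
    · rw [← hgen]
      congr 2
      ext t
      simp
  obtain ⟨T, ⟨hT, hTgen⟩, hTmin⟩ := Set.exists_min_image F Finset.card (Set.toFinite _) hF
  have hirr : ∀ t ∈ T, t ∉ Subgroup.closure ((K : Set G) ∪ ((T.erase t : Finset G) : Set G)) := by
    intro t ht h
    have h1 : Subgroup.closure ((K : Set G) ∪ ((T.erase t : Finset G) : Set G)) = ⊤ := by
      rw [eq_top_iff, ← hTgen, Subgroup.closure_le]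
      rintro x (hx | hx)
      · exact Subgroup.subset_closure (Or.inl hx)
      · by_cases hxt : x = t
        · rw [hxt]; exact h
        · refine Subgroup.subset_closure (Or.inr ?_)
          rw [Finset.mem_coe, Finset.mem_erase]
          exact ⟨hxt, hx⟩
    have h2 := hTmin (T.erase t) ⟨fun s hs => hT s (Finset.mem_of_mem_erase hs), h1⟩
    rw [Finset.card_erase_of_mem ht] at h2
    have : 0 < T.card := Finset.card_pos.2 ⟨t, ht⟩
    omega
  obtain ⟨f, hf, hcon⟩ := exists_matching (cls z K hzK') (ed z T) ed_symm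
    (condition z hz2 hz1 K hzK' h8 T hTgen hirr)
  exact merge_along A hA z hz2 K hzK' τ hτ hthru T (fun t ht => (hT t ht).1)
    (fun t ht => (hT t ht).2) f hf hcon

end Pool.Agent.U869.Mg
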