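import Pool.Agent.U869.MgA

/-!
Closed listings of subgroups which alternate with `z`.
-/

namespace Pool.Agent.U869.Mg

open Pool.Agent.R759.HC Pool.Agent.U869.BL Pool.Agent.U869.Cut

attribute [local instance] Classical.propDecidable

set_option linter.unusedSectionVars false

variable {G : Type*} [Group G] [Finite G]

/-- `K` has a cyclic listing by steps from `A` which runs through all edges `{k, k z}` -/
def Alt (A : Set G) (z : G) (K : Subgroup G) : Prop :=
  ∃ τ : Equiv.Perm G, CycOn A (K : Set G) τ ∧ ∀ k ∈ K, τ k = k * z ∨ τ (k * z) = k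

/-- a cyclic permutation from a closed sequence -/
theorem cyc_of_seq (A : Set G) (K : Subgroup G) (n : ℕ) (hn : 0 < n) (q : ℕ → G)
    (hq : ∀ i, i < n → q i ∈ K) (hinj : ∀ i, i < n → ∀ j, j < n → q i = q j → i = j)
    (hsurj : ∀ k ∈ K, ∃ i, i < n ∧ q i = k) (hper : q n = q 0)
    (hstep : ∀ i, i < n → (q i)⁻¹ * q (i + 1) ∈ A) :
    Nat.card K = n ∧ ∃ τ : Equiv.Perm G, CycOn A (K : Set G) τ ∧
      ∀ i, i < n → τ (q i) = q (i + 1) := by
  have : NeZero n := ⟨hn.ne'⟩
  let S : Fin n → K := fun k => ⟨q k.val, hq k.val k.isLt⟩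
  have Sbij : Function.Bijective S := by
    constructor
    · intro i j hij
      exact Fin.ext (hinj _ i.isLt _ j.isLt (congrArg Subtype.val hij))
    · rintro ⟨k, hk⟩
      obtain ⟨i, hi, rfl⟩ := hsurj k hk
      exact ⟨⟨i, hi⟩, rfl⟩
  let E : Fin n ≃ K := Equiv.ofBijective S Sbij
  have hcard : Nat.card K = n := by
    rw [← Nat.card_congr E, Nat.card_eq_fintype_card, Fintype.card_fin]
  refine ⟨hcard, ?_⟩
  let τ0 : Equiv.Perm K := (E.symm.trans (Equiv.addRight (1 : Fin n))).trans E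
  have hτ0 : ∀ k, τ0 (E k) = E (k + 1) := by
    intro k
    simp [τ0]
  have qnext : ∀ k : Fin n, q (k + 1 : Fin n).val = q (k.val + 1) := by
    intro k
    by_cases hk : k.val + 1 < n
    · have : (k + 1).val = k.val + 1 := by
        rw [Fin.val_add, Fin.val_one', Nat.add_mod_mod, Nat.mod_eq_of_lt hk]
      rw [this]
    · have hk' : k.val + 1 = n := by omega
      have : (k + 1).val = 0 := by
        rw [Fin.val_add, Fin.val_one', Nat.add_mod_mod, hk', Nat.mod_self]
      rw [this, hk', hper]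
  let τ : Equiv.Perm G := Equiv.Perm.ofSubtype τ0
  have ht1 : ∀ x (hx : x ∈ K), τ x = τ0 ⟨x, hx⟩ := by
    intro x hx
    exact Equiv.Perm.ofSubtype_apply_of_mem τ0 hx
  have ht2 : ∀ x, x ∉ K → τ x = x := by
    intro x hx
    exact Equiv.Perm.ofSubtype_apply_of_not_mem τ0 hx
  have htE : ∀ k : Fin n, τ (q k.val) = q (k.val + 1) := by
    intro k
    rw [ht1 (q k.val) (hq _ k.isLt)]
    have : (⟨q k.val, hq _ k.isLt⟩ : K) = E k := rfl
    rw [this, hτ0]
    change q (k + 1 : Fin n).val = _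
    exact qnext k
  refine ⟨τ, ⟨fun x hx => ht2 x hx, ?_, ?_, ?_⟩, fun i hi => htE ⟨i, hi⟩⟩
  · intro x hx
    obtain ⟨i, hi, rfl⟩ := hsurj x hx
    have := htE ⟨i, hi⟩
    change τ (q i) = q (i + 1) at this
    rw [this]
    by_cases h : i + 1 < n
    · exact hq _ h
    · have : i + 1 = n := by omega
      rw [this, hper]
      exact hq 0 hn
  · intro x hx
    obtain ⟨i, hi, rfl⟩ := hsurj x hx
    have := htE ⟨i, hi⟩
    change τ (q i) = q (i + 1) at this
    rw [this]
    exact hstep i hi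
  · have base : ∀ i, i < n → τ.SameCycle (q 0) (q i) := by
      intro i
      induction i with
      | zero => intro _; exact Equiv.Perm.SameCycle.refl _ _
      | succ i ih =>
        intro hi
        have h4 := ih (by omega)
        have h5 : τ (q i) = q (i + 1) := htE ⟨i, by omega⟩
        rw [← h5]
        exact Equiv.Perm.sameCycle_apply_right.2 h4
    intro x hx y hy
    obtain ⟨i, hi, rfl⟩ := hsurj x hx
    obtain ⟨j, hj, rfl⟩ := hsurj y hy
    exact (base i hi).symm.trans (base j hj)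

/-- alternating sequences -/
theorem alt_of_seq (A : Set G) (z : G) (hz2 : z * z = 1) (K : Subgroup G) (m : ℕ) (hm : 0 < m)
    (q : ℕ → G)
    (hq : ∀ i, i < 2 * m → q i ∈ K)
    (hinj : ∀ i, i < 2 * m → ∀ j, j < 2 * m → q i = q j → i = j)
    (hsurj : ∀ k ∈ K, ∃ i, i < 2 * m ∧ q i = k) (hper : q (2 * m) = q 0)
    (hstep : ∀ i, i < 2 * m → (q i)⁻¹ * q (i + 1) ∈ A)
    (halt : (∀ i, i < m → q (2 * i + 1) = q (2 * i) * z) ∨
      (∀ i, i < m → q (2 * i + 2) = q (2 * i + 1) * z)) :
    Nat.card K = 2 * m ∧ Alt A z K := by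
  obtain ⟨hcard, τ, hτ, hτq⟩ := cyc_of_seq A K (2 * m) (by omega) q hq hinj hsurj hper hstep
  refine ⟨hcard, τ, hτ, ?_⟩
  intro k hk
  obtain ⟨i, hi, rfl⟩ := hsurj k hk
  rcases halt with halt | halt
  · rcases Nat.even_or_odd' i with ⟨j, rfl | rfl⟩
    · left
      rw [hτq _ hi, halt j (by omega)]
    · right
      have h1 : q (2 * j + 1) * z = q (2 * j) := by
        rw [halt j (by omega), mul_assoc, hz2, mul_one]
      rw [h1, hτq _ (by omega)]
  · rcases Nat.even_or_odd' i with ⟨j, rfl | rfl⟩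
    · right
      obtain ⟨l, hl, e⟩ : ∃ l, l < m ∧ q (2 * j) = q (2 * l + 2) := by
        by_cases hj : j = 0
        · refine ⟨m - 1, by omega, ?_⟩
          have : 2 * (m - 1) + 2 = 2 * m := by omega
          rw [this, hper, hj]
        · refine ⟨j - 1, by omega, ?_⟩
          congr 1
          omega
      have h1 : q (2 * j) * z = q (2 * l + 1) := by
        rw [e, halt l hl, mul_assoc, hz2, mul_one]
      rw [h1, hτq _ (by omega), e]
    · left
      rw [hτq _ hi]
      exact halt j (by omega)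

/-- zigzag over a closed sequence of columns -/
theorem zig (A : Set G) (z : G) (hzA : z ∈ A) (hz2 : z * z = 1) (hz1 : z ≠ 1) (K : Subgroup G)
    (hzK : z ∈ K) (N : ℕ) (hN : 0 < N) (p : ℕ → G) (hp : ∀ i, i < N → p i ∈ K)
    (hstep : ∀ i, i < N → (p i)⁻¹ * p (i + 1) ∈ A)
    (hcom : ∀ i, i < N → ((p i)⁻¹ * p (i + 1)) * z = z * ((p i)⁻¹ * p (i + 1)))
    (hinj : ∀ i, i < N → ∀ j, j < N → (p i = p j ∨ p i = p j * z) → i = j)
    (hsurj : ∀ k ∈ K, ∃ i, i < N ∧ (k = p i ∨ k = p i * z))
    (hend : p N = p 0 * z ^ N) : Nat.card K = 2 * N ∧ Alt A z K := by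
  have hzz : ∀ i, z ^ i * z ^ i = 1 := by
    intro i
    rw [← pow_add, ← two_mul, pow_mul, pow_two, hz2, one_pow]
  have hzc : ∀ i : ℕ, z ^ i = 1 ∨ z ^ i = z := by
    intro i
    induction i with
    | zero => left; simp
    | succ i ih =>
      rw [pow_succ]
      rcases ih with h | h
      · right; rw [h, one_mul]
      · left; rw [h, hz2]
  have hzp : ∀ i : ℕ, z ^ i ∈ K := fun i => K.pow_mem hzK i
  let q : ℕ → G := fun m => p (m / 2) * z ^ ((m + 1) / 2)
  have q0 : ∀ i, q (2 * i) = p i * z ^ i := by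
    intro i
    have h1 : (2 * i) / 2 = i := by omega
    have h2 : (2 * i + 1) / 2 = i := by omega
    simp only [q, h1, h2]
  have q1 : ∀ i, q (2 * i + 1) = p i * z ^ (i + 1) := by
    intro i
    have h1 : (2 * i + 1) / 2 = i := by omega
    have h2 : (2 * i + 1 + 1) / 2 = i + 1 := by omega
    simp only [q, h1, h2]
  refine alt_of_seq A z hz2 K N hN q ?_ ?_ ?_ ?_ ?_ ?_
  · intro i hi
    exact K.mul_mem (hp _ (by omega)) (hzp _)
  · -- injectivity
    intro i hi j hj hij
    have hcol : i / 2 = j / 2 := by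
      apply hinj _ (by omega) _ (by omega)
      have h1 : p (i / 2) = p (j / 2) * (z ^ ((j + 1) / 2) * z ^ ((i + 1) / 2)) := by
        have h2 : p (i / 2) * z ^ ((i + 1) / 2) * z ^ ((i + 1) / 2) =
            p (j / 2) * z ^ ((j + 1) / 2) * z ^ ((i + 1) / 2) := by
          have : p (i / 2) * z ^ ((i + 1) / 2) = p (j / 2) * z ^ ((j + 1) / 2) := hij
          rw [this]
        rwa [mul_assoc, hzz, mul_one, mul_assoc] at h2
      rw [← pow_add] at h1
      rcases hzc ((j + 1) / 2 + (i + 1) / 2) with h | h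
      · left; rwa [h, mul_one] at h1
      · right; rwa [h] at h1
    by_contra hne
    have key : ∀ l, q (2 * l) ≠ q (2 * l + 1) := by
      intro l h
      rw [q0, q1, pow_succ, ← mul_assoc] at h
      exact hz1 (mul_eq_left.1 h.symm)
    rcases Nat.even_or_odd' i with ⟨a, rfl | rfl⟩ <;> rcases Nat.even_or_odd' j with ⟨b, rfl | rfl⟩
    · omega
    · have : a = b := by omega
      subst this
      exact key _ hij
    · have : a = b := by omega
      subst this
      exact key _ hij.symm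
    · omega
  · intro k hk
    obtain ⟨i, hi, h⟩ := hsurj k hk
    rcases hzc i with hc | hc <;> rcases h with h | h
    · exact ⟨2 * i, by omega, by rw [q0, hc, mul_one, h]⟩
    · exact ⟨2 * i + 1, by omega, by rw [q1, pow_succ, hc, one_mul, h]⟩
    · exact ⟨2 * i + 1, by omega, by rw [q1, pow_succ, hc, hz2, mul_one, h]⟩
    · exact ⟨2 * i, by omega, by rw [q0, hc, h]⟩
  · have h1 := q0 N
    have h2 := q0 0
    rw [mul_zero, pow_zero, mul_one] at h2
    rw [h1, hend, mul_assoc, hzz, mul_one, h2]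
  · intro i hi
    rcases Nat.even_or_odd' i with ⟨j, rfl | rfl⟩
    · rw [q0, q1, pow_succ]
      have : (p j * z ^ j)⁻¹ * (p j * (z ^ j * z)) = z := by group
      rw [this]; exact hzA
    · have h1 : 2 * j + 1 + 1 = 2 * (j + 1) := by ring
      rw [q1, h1, q0]
      have hc := hcom j (by omega)
      have hc' : Commute ((p j)⁻¹ * p (j + 1)) (z ^ (j + 1)) := Commute.pow_right hc _
      have : (p j * z ^ (j + 1))⁻¹ * (p (j + 1) * z ^ (j + 1)) = (p j)⁻¹ * p (j + 1) := by
        have h2 : (p j * z ^ (j + 1))⁻¹ * (p (j + 1) * z ^ (j + 1)) =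
            (z ^ (j + 1))⁻¹ * (((p j)⁻¹ * p (j + 1)) * z ^ (j + 1)) := by group
        rw [h2, hc'.eq, inv_mul_cancel_left]
      rw [this]
      exact hstep j (by omega)
  · left
    intro i hi
    rw [q0, q1, pow_succ, mul_assoc]

end Pool.Agent.U869.Mg
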