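import Pool.Agent.U869.MgB

/-!
Families of subgroups with closed listings which alternate with `z`.
-/

namespace Pool.Agent.U869.Mg

open Pool.Agent.R759.HC Pool.Agent.U869.BL Pool.Agent.U869.Cut

attribute [local instance] Classical.propDecidable

set_option linter.unusedSectionVars false

variable {G : Type*} [Group G] [Finite G]

/-- one element `s`: `⟨s z⟩` is normalised by `z` and does not contain `z` -/
theorem alt_one (A : Set G) (hA : ∀ x ∈ A, x⁻¹ ∈ A) (z s : G) (hzA : z ∈ A) (hsA : s ∈ A)
    (hz2 : z * z = 1) (hn : z ∉ Subgroup.zpowers (s * z))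
    (hnorm : z * (s * z) * z ∈ Subgroup.zpowers (s * z)) :
    Nat.card (Subgroup.closure ({s, z} : Set G)) = 2 * orderOf (s * z) ∧
      Alt A z (Subgroup.closure ({s, z} : Set G)) := by
  set K := Subgroup.closure ({s, z} : Set G) with hK
  set w := s * z with hw
  have hsK : s ∈ K := Subgroup.subset_closure (by simp)
  have hzK : z ∈ K := Subgroup.subset_closure (by simp)
  have hwK : w ∈ K := K.mul_mem hsK hzK
  have hz' : z⁻¹ = z := inv_eq_of_mul_eq_one_left hz2
  have hwz : w * z = s := by rw [hw, mul_assoc, hz2, mul_one]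
  set C := Subgroup.zpowers w with hC
  have hwC : w ∈ C := Subgroup.mem_zpowers w
  have hconj : ∀ x ∈ C, z * x * z ∈ C := by
    intro x hx
    obtain ⟨k, rfl⟩ := Subgroup.mem_zpowers_iff.1 hx
    have h1 : (z * w * z⁻¹) ^ k = z * w ^ k * z⁻¹ := conj_zpow
    rw [hz'] at h1
    rw [← h1]
    exact C.zpow_mem hnorm k
  have hpos : 0 < orderOf w := orderOf_pos w
  let q : ℕ → G := fun m => w ^ ((m + 1) / 2) * z ^ (m % 2)
  have q0 : ∀ i, q (2 * i) = w ^ i := by
    intro i
    have h1 : (2 * i + 1) / 2 = i := by omega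
    have h2 : (2 * i) % 2 = 0 := by omega
    simp only [q, h1, h2, pow_zero, mul_one]
  have q1 : ∀ i, q (2 * i + 1) = w ^ (i + 1) * z := by
    intro i
    have h1 : (2 * i + 1 + 1) / 2 = i + 1 := by omega
    have h2 : (2 * i + 1) % 2 = 1 := by omega
    simp only [q, h1, h2, pow_one]
  have hcz : ∀ x ∈ C, ∀ y ∈ C, x ≠ y * z := by
    intro x hx y hy h
    apply hn
    have : z = y⁻¹ * x := by rw [h]; group
    rw [this]
    exact C.mul_mem (C.inv_mem hy) hx
  have hinjw : ∀ i j, i < orderOf w → j < orderOf w → w ^ i = w ^ j → i = j := by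
    intro i j hi hj h
    exact pow_injOn_Iio_orderOf hi hj h
  refine alt_of_seq A z hz2 K (orderOf w) hpos q ?_ ?_ ?_ ?_ ?_ ?_
  · intro i _
    exact K.mul_mem (K.pow_mem hwK _) (K.pow_mem hzK _)
  · intro i hi j hj hij
    rcases Nat.even_or_odd' i with ⟨a, rfl | rfl⟩ <;> rcases Nat.even_or_odd' j with ⟨b, rfl | rfl⟩
    · rw [q0, q0] at hij
      have := hinjw a b (by omega) (by omega) hij
      omega
    · rw [q0, q1] at hij
      exact absurd hij (hcz _ (C.pow_mem hwC _) _ (C.pow_mem hwC _))
    · rw [q0, q1] at hij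
      exact absurd hij.symm (hcz _ (C.pow_mem hwC _) _ (C.pow_mem hwC _))
    · rw [q1, q1] at hij
      have h1 := mul_right_cancel hij
      rw [pow_succ, pow_succ] at h1
      have := hinjw a b (by omega) (by omega) (mul_right_cancel h1)
      omega
  · -- surjectivity
    have hdesc : ∀ k ∈ K, k ∈ C ∨ k * z ∈ C := by
      intro k hk
      rw [hK] at hk
      have st_z : ∀ x : G, (x ∈ C ∨ x * z ∈ C) → (x * z ∈ C ∨ x * z * z ∈ C) := by
        rintro x (h | h)
        · right; rw [mul_assoc, hz2, mul_one]; exact h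
        · left; exact h
      have st_s : ∀ x : G, (x ∈ C ∨ x * z ∈ C) → (x * s ∈ C ∨ x * s * z ∈ C) := by
        rintro x (h | h)
        · right; rw [mul_assoc]; exact C.mul_mem h hwC
        · left
          have e : x * s = (x * z) * (z * w * z) := by
            rw [← hwz]
            calc x * (w * z) = x * 1 * w * z := by group
              _ = x * (z * z) * w * z := by rw [hz2]
              _ = (x * z) * (z * w * z) := by group
          rw [e]
          exact C.mul_mem h (hconj w hwC)
      have st_si : ∀ x : G, (x ∈ C ∨ x * z ∈ C) → (x * s⁻¹ ∈ C ∨ x * s⁻¹ * z ∈ C) := by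
        rintro x (h | h)
        · right
          have e : x * s⁻¹ * z = x * (z * w⁻¹ * z) := by
            rw [← hwz, mul_inv_rev, hz']
            group
          rw [e]
          exact C.mul_mem h (hconj _ (C.inv_mem hwC))
        · left
          have e : x * s⁻¹ = (x * z) * w⁻¹ := by
            rw [hw]; group
          rw [e]
          exact C.mul_mem h (C.inv_mem hwC)
      induction hk using Subgroup.closure_induction_right with
      | one => exact Or.inl C.one_mem
      | mul_right x _ y hy ih =>
        rcases hy with rfl | hy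
        · exact st_s x ih
        · rw [Set.mem_singleton_iff] at hy
          subst hy
          exact st_z x ih
      | mul_inv_cancel x _ y hy ih =>
        rcases hy with rfl | hy
        · exact st_si x ih
        · rw [Set.mem_singleton_iff] at hy
          subst hy
          rw [hz']
          exact st_z x ih
    have hpw : ∀ x ∈ C, ∃ i, i < orderOf w ∧ w ^ i = x := by
      intro x hx
      rw [hC, ← mem_powers_iff_mem_zpowers, Submonoid.mem_powers_iff] at hx
      obtain ⟨n, rfl⟩ := hx
      exact ⟨n % orderOf w, Nat.mod_lt _ hpos, pow_mod_orderOf w n⟩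
    intro k hk
    rcases hdesc k hk with h | h
    · obtain ⟨i, hi, rfl⟩ := hpw k h
      exact ⟨2 * i, by omega, q0 i⟩
    · obtain ⟨i, hi, e⟩ := hpw (k * z * w⁻¹) (C.mul_mem h (C.inv_mem hwC))
      refine ⟨2 * i + 1, by omega, ?_⟩
      rw [q1, pow_succ, e, inv_mul_cancel_right, mul_assoc, hz2, mul_one]
  · have h1 := q0 (orderOf w)
    have h2 := q0 0
    rw [mul_zero, pow_zero] at h2
    rw [h1, h2, pow_orderOf_eq_one]
  · intro i hi
    rcases Nat.even_or_odd' i with ⟨j, rfl | rfl⟩
    · rw [q0, q1, pow_succ]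
      have : (w ^ j)⁻¹ * (w ^ j * w * z) = s := by
        rw [← hwz]; group
      rw [this]; exact hsA
    · have h1 : 2 * j + 1 + 1 = 2 * (j + 1) := by ring
      rw [q1, h1, q0]
      have : (w ^ (j + 1) * z)⁻¹ * w ^ (j + 1) = z⁻¹ := by group
      rw [this]; exact hA _ hzA
  · right
    intro i hi
    have h1 : 2 * i + 2 = 2 * (i + 1) := by ring
    rw [h1, q0, q1, mul_assoc, hz2, mul_one]

/-- two involutions `s`, `t` which commute with `z` -/
theorem alt_two (A : Set G) (z s t : G) (hzA : z ∈ A) (hsA : s ∈ A) (htA : t ∈ A)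
    (hz2 : z * z = 1) (hz1 : z ≠ 1) (hs2 : s * s = 1) (ht2 : t * t = 1) (hs1 : s ≠ 1)
    (ht1 : t ≠ 1) (hst : s ≠ t) (hsz : s * z = z * s) (htz : t * z = z * t)
    (hn : z ∉ Subgroup.closure ({s, t} : Set G)) :
    Nat.card (Subgroup.closure ({s, t, z} : Set G)) = 2 * (2 * orderOf (s * t)) ∧
      Alt A z (Subgroup.closure ({s, t, z} : Set G)) := by
  set K := Subgroup.closure ({s, t, z} : Set G) with hK
  set D := Subgroup.closure ({s, t} : Set G) with hD
  set w := s * t with hw
  have hsK : s ∈ K := Subgroup.subset_closure (by simp)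
  have htK : t ∈ K := Subgroup.subset_closure (by simp)
  have hzK : z ∈ K := Subgroup.subset_closure (by simp)
  have hsD : s ∈ D := Subgroup.subset_closure (by simp)
  have htD : t ∈ D := Subgroup.subset_closure (by simp)
  have hwD : w ∈ D := D.mul_mem hsD htD
  have hwK : w ∈ K := K.mul_mem hsK htK
  have hs' : s⁻¹ = s := inv_eq_of_mul_eq_one_left hs2
  have ht' : t⁻¹ = t := inv_eq_of_mul_eq_one_left ht2
  have hz' : z⁻¹ = z := inv_eq_of_mul_eq_one_left hz2
  set C := Subgroup.zpowers w with hC
  have hwC : w ∈ C := Subgroup.mem_zpowers w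
  have hts : t * s = w⁻¹ := by rw [hw, mul_inv_rev, hs', ht']
  have hsw : s * w = w⁻¹ * s := by
    rw [hw, mul_inv_rev, hs', ht']
    calc s * (s * t) = (s * s) * t := by group
      _ = t * (s * s) := by rw [hs2, one_mul, mul_one]
      _ = t * s * s := by group
  have hswp : ∀ k : ℕ, s * w ^ k * s ∈ C := by
    intro k
    have h1 : (s * w * s⁻¹) ^ k = s * w ^ k * s⁻¹ := conj_pow
    rw [hs'] at h1
    rw [← h1, hsw, mul_assoc, hs2, mul_one]
    exact C.pow_mem (C.inv_mem hwC) _
  have hsC : s ∉ C := by
    intro hsC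
    obtain ⟨i, hi⟩ := Subgroup.mem_zpowers_iff.1 hsC
    have hcomm : s * w = w * s := by
      rw [← hi]
      exact (Commute.self_zpow w i).eq.symm
    have h1 : w * s = w⁻¹ * s := by rw [← hcomm, hsw]
    have h2 : w = w⁻¹ := mul_right_cancel h1
    have hw2 : w ^ (2 : ℤ) = 1 := by
      rw [zpow_two]
      nth_rewrite 2 [h2]
      exact mul_inv_cancel w
    rcases Int.even_or_odd' i with ⟨m, rfl | rfl⟩
    · rw [zpow_mul, hw2, one_zpow] at hi
      exact hs1 hi.symm
    · rw [zpow_add, zpow_mul, hw2, one_zpow, one_mul, zpow_one] at hi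
      apply ht1
      rw [hw] at hi
      exact mul_eq_left.1 hi
  have hpos : 0 < orderOf w := orderOf_pos w
  have hwz : w * z = z * w := by
    rw [hw, mul_assoc, htz, ← mul_assoc, hsz, mul_assoc]
  let p : ℕ → G := fun m => w ^ (m / 2) * s ^ (m % 2)
  have p0 : ∀ i, p (2 * i) = w ^ i := by
    intro i
    have h1 : (2 * i) / 2 = i := by omega
    have h2 : (2 * i) % 2 = 0 := by omega
    simp only [p, h1, h2, pow_zero, mul_one]
  have p1 : ∀ i, p (2 * i + 1) = w ^ i * s := by
    intro i
    have h1 : (2 * i + 1) / 2 = i := by omega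
    have h2 : (2 * i + 1) % 2 = 1 := by omega
    simp only [p, h1, h2, pow_one]
  have hpD : ∀ i, p i ∈ D := fun i => D.mul_mem (D.pow_mem hwD _) (D.pow_mem hsD _)
  have hst0 : ∀ i, (p (2 * i))⁻¹ * p (2 * i + 1) = s := by
    intro i; rw [p0, p1, inv_mul_cancel_left]
  have hst1 : ∀ i, (p (2 * i + 1))⁻¹ * p (2 * i + 1 + 1) = t := by
    intro i
    have h1 : 2 * i + 1 + 1 = 2 * (i + 1) := by ring
    rw [p1, h1, p0, pow_succ, mul_inv_rev, hs', hw]
    calc s * (( s * t) ^ i)⁻¹ * ((s * t) ^ i * (s * t)) = (s * s) * t := by group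
      _ = t := by rw [hs2, one_mul]
  refine zig A z hzA hz2 hz1 K hzK (2 * orderOf w) (by omega) p ?_ ?_ ?_ ?_ ?_ ?_
  · intro i _
    exact K.mul_mem (K.pow_mem hwK _) (K.pow_mem hsK _)
  · intro i _
    rcases Nat.even_or_odd' i with ⟨j, rfl | rfl⟩
    · rw [hst0]; exact hsA
    · rw [hst1]; exact htA
  · intro i _
    rcases Nat.even_or_odd' i with ⟨j, rfl | rfl⟩
    · rw [hst0]; exact hsz
    · rw [hst1]; exact htz
  · intro i hi j hj h
    rcases h with h | h
    · rcases Nat.even_or_odd' i with ⟨a, rfl | rfl⟩ <;>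
        rcases Nat.even_or_odd' j with ⟨b, rfl | rfl⟩
      · rw [p0, p0] at h
        have := pow_injOn_Iio_orderOf (show a < orderOf w by omega)
          (show b < orderOf w by omega) h
        omega
      · exfalso
        rw [p0, p1] at h
        apply hsC
        have : s = (w ^ b)⁻¹ * w ^ a := by rw [h]; group
        rw [this]
        exact C.mul_mem (C.inv_mem (C.pow_mem hwC _)) (C.pow_mem hwC _)
      · exfalso
        rw [p0, p1] at h
        apply hsC
        have : s = (w ^ a)⁻¹ * w ^ b := by rw [← h]; group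
        rw [this]
        exact C.mul_mem (C.inv_mem (C.pow_mem hwC _)) (C.pow_mem hwC _)
      · rw [p1, p1] at h
        have := pow_injOn_Iio_orderOf (show a < orderOf w by omega)
          (show b < orderOf w by omega) (mul_right_cancel h)
        omega
    · exfalso
      apply hn
      have : z = (p j)⁻¹ * p i := by rw [h]; group
      rw [this]
      exact D.mul_mem (D.inv_mem (hpD _)) (hpD _)
  · -- surjectivity
    have hpw : ∀ x ∈ C, ∃ i, i < orderOf w ∧ w ^ i = x := by
      intro x hx
      rw [hC, ← mem_powers_iff_mem_zpowers, Submonoid.mem_powers_iff] at hx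
      obtain ⟨n, rfl⟩ := hx
      exact ⟨n % orderOf w, Nat.mod_lt _ hpos, pow_mod_orderOf w n⟩
    have hsCs : ∀ x ∈ C, s * x * s ∈ C := by
      intro x hx
      obtain ⟨i, _, rfl⟩ := hpw x hx
      exact hswp i
    have hDd : ∀ k ∈ D, k ∈ C ∨ k * s ∈ C := by
      intro k hk
      rw [hD] at hk
      have st_s : ∀ x : G, (x ∈ C ∨ x * s ∈ C) → (x * s ∈ C ∨ x * s * s ∈ C) := by
        rintro x (h | h)
        · right; rw [mul_assoc, hs2, mul_one]; exact h
        · left; exact h
      have st_t : ∀ x : G, (x ∈ C ∨ x * s ∈ C) → (x * t ∈ C ∨ x * t * s ∈ C) := by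
        rintro x (h | h)
        · right; rw [mul_assoc, hts]; exact C.mul_mem h (C.inv_mem hwC)
        · left
          have e : x * t = (x * s) * w := by
            rw [hw]
            calc x * t = x * 1 * t := by group
              _ = x * (s * s) * t := by rw [hs2]
              _ = (x * s) * (s * t) := by group
          rw [e]
          exact C.mul_mem h hwC
      induction hk using Subgroup.closure_induction_right with
      | one => exact Or.inl C.one_mem
      | mul_right x _ y hy ih =>
        rcases hy with rfl | hy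
        · exact st_s x ih
        · rw [Set.mem_singleton_iff] at hy
          subst hy
          exact st_t x ih
      | mul_inv_cancel x _ y hy ih =>
        rcases hy with rfl | hy
        · rw [hs']; exact st_s x ih
        · rw [Set.mem_singleton_iff] at hy
          subst hy
          rw [ht']
          exact st_t x ih
    have hKd : ∀ k ∈ K, k ∈ D ∨ k * z ∈ D := by
      intro k hk
      rw [hK] at hk
      have st_z : ∀ x : G, (x ∈ D ∨ x * z ∈ D) → (x * z ∈ D ∨ x * z * z ∈ D) := by
        rintro x (h | h)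
        · right; rw [mul_assoc, hz2, mul_one]; exact h
        · left; exact h
      have st_d : ∀ d ∈ D, d * z = z * d → ∀ x : G, (x ∈ D ∨ x * z ∈ D) →
          (x * d ∈ D ∨ x * d * z ∈ D) := by
        rintro d hd hdz x (h | h)
        · left; exact D.mul_mem h hd
        · right; rw [mul_assoc, hdz, ← mul_assoc]; exact D.mul_mem h hd
      induction hk using Subgroup.closure_induction_right with
      | one => exact Or.inl D.one_mem
      | mul_right x _ y hy ih =>
        rcases hy with rfl | rfl | hy
        · exact st_d _ hsD hsz x ih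
        · exact st_d _ htD htz x ih
        · rw [Set.mem_singleton_iff] at hy
          subst hy
          exact st_z x ih
      | mul_inv_cancel x _ y hy ih =>
        rcases hy with rfl | rfl | hy
        · rw [hs']; exact st_d _ hsD hsz x ih
        · rw [ht']; exact st_d _ htD htz x ih
        · rw [Set.mem_singleton_iff] at hy
          subst hy
          rw [hz']
          exact st_z x ih
    have hD2 : ∀ k ∈ D, ∃ i, i < 2 * orderOf w ∧ k = p i := by
      intro k hk
      rcases hDd k hk with h | h
      · obtain ⟨i, hi, rfl⟩ := hpw k h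
        exact ⟨2 * i, by omega, (p0 i).symm⟩
      · obtain ⟨i, hi, e⟩ := hpw _ h
        refine ⟨2 * i + 1, by omega, ?_⟩
        rw [p1, e, mul_assoc, hs2, mul_one]
    intro k hk
    rcases hKd k hk with h | h
    · obtain ⟨i, hi, e⟩ := hD2 k h
      exact ⟨i, hi, Or.inl e⟩
    · obtain ⟨i, hi, e⟩ := hD2 _ h
      refine ⟨i, hi, Or.inr ?_⟩
      rw [← e, mul_assoc, hz2, mul_one]
  · have h1 := p0 (orderOf w)
    have h2 := p0 0
    rw [mul_zero, pow_zero] at h2
    rw [h1, h2, pow_orderOf_eq_one, pow_mul, pow_two, hz2, one_pow, mul_one]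

end Pool.Agent.U869.Mg
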