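import Pool.Agent.U869.MgC

/-!
Grids: two elements, one of which normalises the other.
-/

namespace Pool.Agent.U869.Mg

open Pool.Agent.R759.HC Pool.Agent.U869.BL Pool.Agent.U869.Cut

attribute [local instance] Classical.propDecidable

set_option linter.unusedSectionVars false

/-- neighbours in the grid -/
def GAdj (u v : ℕ × ℕ) : Prop :=
  (u.1 = v.1 ∧ (u.2 = v.2 + 1 ∨ v.2 = u.2 + 1)) ∨ (u.2 = v.2 ∧ (u.1 = v.1 + 1 ∨ v.1 = u.1 + 1))

/-- a cyclic tour of the `a × b` grid -/
structure Tour (a b : ℕ) (c : ℕ → ℕ × ℕ) : Prop where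
  mem : ∀ m, m < a * b → (c m).1 < a ∧ (c m).2 < b
  inj : ∀ m, m < a * b → ∀ n, n < a * b → c m = c n → m = n
  surj : ∀ i j, i < a → j < b → ∃ m, m < a * b ∧ c m = (i, j)
  zero : c 0 = (0, 0)
  last : c (a * b) = (0, 0)
  adj : ∀ m, m < a * b → GAdj (c m) (c (m + 1))

theorem tour_even (k b : ℕ) (hk : 1 ≤ k) (hb : 2 ≤ b) (hev : b % 2 = 0) :
    ∃ c, Tour (k + 1) b c := by
  let c : ℕ → ℕ × ℕ := fun m => if m < b then (0, m) else if m < (k + 1) * b then
    (if ((m - b) / k) % 2 = 0 then 1 + (m - b) % k else k - (m - b) % k, b - 1 - (m - b) / k)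
    else (0, 0)
  have hN : (k + 1) * b = b + k * b := by ring
  have hbk : b ≤ k * b := Nat.le_mul_of_pos_left b hk
  have c1 : ∀ m, m < b → c m = (0, m) := fun m hm => if_pos hm
  have c2 : ∀ r x, r < b → x < k → c (b + k * r + x) =
      (if r % 2 = 0 then 1 + x else k - x, b - 1 - r) := by
    intro r x hr hx
    have h1 : ¬ (b + k * r + x < b) := by omega
    have h2 : b + k * r + x < (k + 1) * b := by
      have : k * (r + 1) ≤ k * b := Nat.mul_le_mul_left _ hr
      rw [Nat.mul_add, mul_one] at this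
      omega
    have h3 : b + k * r + x - b = x + k * r := by omega
    have h4 : (x + k * r) / k = r := by
      rw [Nat.add_mul_div_left _ _ (by omega), Nat.div_eq_of_lt hx, zero_add]
    have h5 : (x + k * r) % k = x := by
      rw [Nat.add_mul_mod_self_left, Nat.mod_eq_of_lt hx]
    simp only [c]
    rw [if_neg h1, if_pos h2, h3, h4, h5]
  have c3 : c ((k + 1) * b) = (0, 0) := by
    simp only [c]
    rw [if_neg (by omega), if_neg (by omega)]
  have dec : ∀ m, b ≤ m → m < (k + 1) * b → ∃ r x, r < b ∧ x < k ∧ m = b + k * r + x := by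
    intro m h1 h2
    refine ⟨(m - b) / k, (m - b) % k, ?_, Nat.mod_lt _ (by omega), ?_⟩
    · rw [Nat.div_lt_iff_lt_mul (by omega), mul_comm]
      omega
    · have := Nat.div_add_mod (m - b) k
      omega
  refine ⟨c, ?_, ?_, ?_, ?_, ?_, ?_⟩
  · intro m hm
    by_cases h : m < b
    · rw [c1 m h]; exact ⟨by omega, h⟩
    · obtain ⟨r, x, hr, hx, rfl⟩ := dec m (by omega) hm
      rw [c2 r x hr hx]
      split_ifs
      · exact ⟨by simp only; omega, by simp only; omega⟩
      · exact ⟨by simp only; omega, by simp only; omega⟩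
  · intro m hm n hn h
    by_cases h1 : m < b <;> by_cases h2 : n < b
    · rw [c1 m h1, c1 n h2] at h
      simpa using h
    · obtain ⟨r, x, hr, hx, rfl⟩ := dec n (by omega) hn
      rw [c1 m h1, c2 r x hr hx] at h
      have h3 := congrArg Prod.fst h
      simp only at h3
      split_ifs at h3 <;> omega
    · obtain ⟨r, x, hr, hx, rfl⟩ := dec m (by omega) hm
      rw [c1 n h2, c2 r x hr hx] at h
      have h3 := congrArg Prod.fst h
      simp only at h3
      split_ifs at h3 <;> omega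
    · obtain ⟨r, x, hr, hx, rfl⟩ := dec m (by omega) hm
      obtain ⟨r', x', hr', hx', rfl⟩ := dec n (by omega) hn
      rw [c2 r x hr hx, c2 r' x' hr' hx'] at h
      have h3 := congrArg Prod.fst h
      have h4 := congrArg Prod.snd h
      simp only at h3 h4
      have h5 : r = r' := by omega
      subst h5
      have h6 : x = x' := by split_ifs at h3 <;> omega
      rw [h6]
  · intro i j hi hj
    by_cases h0 : i = 0
    · refine ⟨j, by omega, ?_⟩
      rw [c1 j hj, h0]
    · by_cases hp : (b - 1 - j) % 2 = 0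
      · refine ⟨b + k * (b - 1 - j) + (i - 1), ?_, ?_⟩
        · have : k * (b - 1 - j + 1) ≤ k * b := Nat.mul_le_mul_left _ (by omega)
          rw [Nat.mul_add, mul_one] at this
          omega
        · rw [c2 _ _ (by omega) (by omega), if_pos hp]
          ext <;> simp only <;> omega
      · refine ⟨b + k * (b - 1 - j) + (k - i), ?_, ?_⟩
        · have : k * (b - 1 - j + 1) ≤ k * b := Nat.mul_le_mul_left _ (by omega)
          rw [Nat.mul_add, mul_one] at this
          omega
        · rw [c2 _ _ (by omega) (by omega), if_neg hp]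
          ext <;> simp only <;> omega
  · rw [c1 0 (by omega)]
  · exact c3
  · intro m hm
    by_cases h1 : m + 1 < b
    · rw [c1 m (by omega), c1 _ h1]
      left; exact ⟨rfl, Or.inr rfl⟩
    by_cases h2 : m + 1 = b
    · have h3 := c2 0 0 (by omega) (by omega)
      rw [mul_zero, add_zero, add_zero] at h3
      rw [c1 m (by omega), h2, h3]
      right
      simp only
      refine ⟨by omega, Or.inr ?_⟩
      simp
    obtain ⟨r, x, hr, hx, rfl⟩ := dec m (by omega) hm
    rw [c2 r x hr hx]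
    by_cases h3 : x + 1 < k
    · have e : b + k * r + x + 1 = b + k * r + (x + 1) := by ring
      rw [e, c2 r (x + 1) hr h3]
      right
      refine ⟨rfl, ?_⟩
      simp only
      split_ifs
      · right; omega
      · left; omega
    · have hxk : x + 1 = k := by omega
      have e : b + k * r + x + 1 = b + k * (r + 1) + 0 := by
        rw [Nat.mul_add, mul_one]; omega
      by_cases h4 : r + 1 < b
      · rw [e, c2 (r + 1) 0 h4 (by omega)]
        left
        simp only
        refine ⟨?_, Or.inl (by omega)⟩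
        split_ifs <;> omega
      · have hrb : r + 1 = b := by omega
        have e2 : b + k * r + x + 1 = (k + 1) * b := by
          rw [e, hrb]; ring
        rw [e2, c3]
        right
        simp only
        refine ⟨by omega, Or.inl ?_⟩
        rw [if_neg (by omega)]
        omega

theorem tour_swap {a b : ℕ} {c : ℕ → ℕ × ℕ} (h : Tour a b c) :
    Tour b a (fun m => ((c m).2, (c m).1)) := by
  have e : b * a = a * b := mul_comm _ _
  refine ⟨?_, ?_, ?_, ?_, ?_, ?_⟩
  · intro m hm
    rw [e] at hm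
    exact ⟨(h.mem m hm).2, (h.mem m hm).1⟩
  · intro m hm n hn hc
    rw [e] at hm hn
    apply h.inj m hm n hn
    exact Prod.ext (congrArg Prod.snd hc) (congrArg Prod.fst hc)
  · intro i j hi hj
    obtain ⟨m, hm, hc⟩ := h.surj j i hj hi
    exact ⟨m, by rw [e]; exact hm, by simp only [hc]⟩
  · simp only [h.zero]
  · rw [e]; simp only [h.last]
  · intro m hm
    rw [e] at hm
    rcases h.adj m hm with h1 | h1
    · exact Or.inr h1
    · exact Or.inl h1

theorem tour (a b : ℕ) (ha : 2 ≤ a) (hb : 2 ≤ b) (hev : 2 ∣ a * b) : ∃ c, Tour a b c := by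
  rcases (Nat.Prime.dvd_mul Nat.prime_two).1 hev with h | h
  · obtain ⟨c, hc⟩ := tour_even (b - 1) a (by omega) ha (by omega)
    have e : b - 1 + 1 = b := by omega
    rw [e] at hc
    exact ⟨_, tour_swap hc⟩
  · obtain ⟨c, hc⟩ := tour_even (a - 1) b (by omega) hb (by omega)
    have e : a - 1 + 1 = a := by omega
    rw [e] at hc
    exact ⟨_, hc⟩

variable {G : Type*} [Group G] [Finite G]

/-- two elements `s`, `t` which commute with `z`, where `t` commutes with `s` or inverts it -/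
theorem alt_grid (A : Set G) (hA : ∀ x ∈ A, x⁻¹ ∈ A) (z s t : G) (hzA : z ∈ A) (hsA : s ∈ A)
    (htA : t ∈ A) (hz2 : z * z = 1) (hz1 : z ≠ 1) (hsz : s * z = z * s) (htz : t * z = z * t)
    (hts : t⁻¹ * s * t = s ∨ t⁻¹ * s * t = s⁻¹) (hs : s ∉ Subgroup.zpowers z)
    (ht : t ∉ Subgroup.closure ({s, z} : Set G))
    (h4 : 4 ∣ Nat.card (Subgroup.closure ({s, t, z} : Set G))) :
    8 ≤ Nat.card (Subgroup.closure ({s, t, z} : Set G)) ∧
      Alt A z (Subgroup.closure ({s, t, z} : Set G)) := by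
  set K := Subgroup.closure ({s, t, z} : Set G) with hK
  set S := Subgroup.closure ({s, z} : Set G) with hS
  set Z := Subgroup.zpowers z with hZ
  have hsK : s ∈ K := Subgroup.subset_closure (by simp)
  have htK : t ∈ K := Subgroup.subset_closure (by simp)
  have hzK : z ∈ K := Subgroup.subset_closure (by simp)
  have hsS : s ∈ S := Subgroup.subset_closure (by simp)
  have hzS : z ∈ S := Subgroup.subset_closure (by simp)
  have hz' : z⁻¹ = z := inv_eq_of_mul_eq_one_left hz2
  have hZd : ∀ x ∈ Z, x = 1 ∨ x = z := by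
    intro x hx
    obtain ⟨k, rfl⟩ := Subgroup.mem_zpowers_iff.1 hx
    have hz2' : z ^ (2 : ℤ) = 1 := by rw [zpow_two]; exact hz2
    rcases Int.even_or_odd' k with ⟨m, rfl | rfl⟩
    · left; rw [zpow_mul, hz2', one_zpow]
    · right; rw [zpow_add, zpow_mul, hz2', one_zpow, one_mul, zpow_one]
  have hzn : ∀ i : ℕ, z ^ i = 1 ∨ z ^ i = z := fun i => hZd _ (Subgroup.pow_mem _
    (Subgroup.mem_zpowers z) i)
  -- conjugation
  have hcj : ∀ j : ℕ, (t ^ j)⁻¹ * s * t ^ j = s ∨ (t ^ j)⁻¹ * s * t ^ j = s⁻¹ := by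
    intro j
    induction j with
    | zero => left; simp
    | succ j ih =>
      have e : (t ^ (j + 1))⁻¹ * s * t ^ (j + 1) = t⁻¹ * ((t ^ j)⁻¹ * s * t ^ j) * t := by
        rw [pow_succ]; group
      rw [e]
      rcases ih with h | h <;> rw [h]
      · exact hts
      · have e2 : t⁻¹ * s⁻¹ * t = (t⁻¹ * s * t)⁻¹ := by group
        rw [e2]
        rcases hts with h | h <;> rw [h]
        · right; rfl
        · left; exact inv_inv s
  have hcjS : ∀ j : ℕ, t ^ j * s * (t ^ j)⁻¹ ∈ S := by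
    intro j
    rcases hcj j with h | h
    · have : t ^ j * s * (t ^ j)⁻¹ = s := by
        have h2 : t ^ j * ((t ^ j)⁻¹ * s * t ^ j) * (t ^ j)⁻¹ = t ^ j * s * (t ^ j)⁻¹ := by rw [h]
        rw [← h2]; group
      rw [this]; exact hsS
    · have : t ^ j * s * (t ^ j)⁻¹ = s⁻¹ := by
        have h2 : (t ^ j * ((t ^ j)⁻¹ * s * t ^ j) * (t ^ j)⁻¹)⁻¹ =
            (t ^ j * s⁻¹ * (t ^ j)⁻¹)⁻¹ := by rw [h]
        have h3 : (t ^ j * s⁻¹ * (t ^ j)⁻¹)⁻¹ = t ^ j * s * (t ^ j)⁻¹ := by group
        rw [← h3, ← h2]; group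
      rw [this]; exact S.inv_mem hsS
  have hcsz : Commute s z := hsz
  have hctz : Commute t z := htz
  -- the order `a` of `s` modulo `z`
  have hexa : ∃ a, 0 < a ∧ s ^ a ∈ Z := ⟨orderOf s, orderOf_pos s, by
    rw [pow_orderOf_eq_one]; exact Z.one_mem⟩
  have hexb : ∃ b, 0 < b ∧ t ^ b ∈ S := ⟨orderOf t, orderOf_pos t, by
    rw [pow_orderOf_eq_one]; exact S.one_mem⟩
  obtain ⟨a, ⟨ha0, ha⟩, hamin⟩ : ∃ a, (0 < a ∧ s ^ a ∈ Z) ∧ ∀ i, 0 < i → i < a → s ^ i ∉ Z :=
    ⟨Nat.find hexa, Nat.find_spec hexa, fun i h1 h2 h3 => Nat.find_min hexa h2 ⟨h1, h3⟩⟩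
  obtain ⟨b, ⟨hb0, hb⟩, hbmin⟩ : ∃ b, (0 < b ∧ t ^ b ∈ S) ∧ ∀ i, 0 < i → i < b → t ^ i ∉ S :=
    ⟨Nat.find hexb, Nat.find_spec hexb, fun i h1 h2 h3 => Nat.find_min hexb h2 ⟨h1, h3⟩⟩
  have ha2 : 2 ≤ a := by
    by_contra h
    have : a = 1 := by omega
    rw [this, pow_one] at ha
    exact hs ha
  have hb2 : 2 ≤ b := by
    by_contra h
    have : b = 1 := by omega
    rw [this, pow_one] at hb
    exact ht hb
  -- elements of `S`
  have hSd : ∀ x ∈ S, ∃ i, i < a ∧ ∃ e : ℕ, x = s ^ i * z ^ e := by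
    intro x hx
    have h1 : ∀ y ∈ ({s, z} : Set G), ∀ g ∈ {x | ∃ n e : ℕ, x = s ^ n * z ^ e},
        g * y ∈ {x | ∃ n e : ℕ, x = s ^ n * z ^ e} := by
      rintro y (rfl | hy) g ⟨n, e, rfl⟩
      · refine ⟨n + 1, e, ?_⟩
        rw [pow_succ, mul_assoc, mul_assoc, (Commute.pow_right hcsz e).eq]
      · rw [Set.mem_singleton_iff] at hy
        subst hy
        exact ⟨n, e + 1, by rw [pow_succ, mul_assoc]⟩
    have h2 := closed_closure h1 x hx 1 ⟨0, 0, by simp⟩
    rw [one_mul] at h2
    obtain ⟨n, e, rfl⟩ := h2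
    have h3 : ∃ e' : ℕ, (s ^ a) ^ (n / a) = z ^ e' := by
      rcases hZd _ (Z.pow_mem ha (n / a)) with h | h
      · exact ⟨0, by rw [h, pow_zero]⟩
      · exact ⟨1, by rw [h, pow_one]⟩
    obtain ⟨e', he'⟩ := h3
    refine ⟨n % a, Nat.mod_lt _ ha0, e' + e, ?_⟩
    have h4 : s ^ n = s ^ (n % a) * (s ^ a) ^ (n / a) := by
      rw [← pow_mul, ← pow_add, Nat.mod_add_div]
    rw [h4, he', pow_add, mul_assoc]
  -- elements of `K`
  have hKd : ∀ x ∈ K, ∃ i j, i < a ∧ j < b ∧ (x = s ^ i * t ^ j ∨ x = s ^ i * t ^ j * z) := by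
    intro x hx
    have h1 : ∀ y ∈ ({s, t, z} : Set G), ∀ g ∈ {x | ∃ y ∈ S, ∃ n : ℕ, x = y * t ^ n},
        g * y ∈ {x | ∃ y ∈ S, ∃ n : ℕ, x = y * t ^ n} := by
      rintro y (rfl | rfl | hy) g ⟨w, hw, n, rfl⟩
      · refine ⟨w * (t ^ n * y * (t ^ n)⁻¹), S.mul_mem hw (hcjS n), n, ?_⟩
        group
      · exact ⟨w, hw, n + 1, by rw [pow_succ, mul_assoc]⟩
      · rw [Set.mem_singleton_iff] at hy
        subst hy
        refine ⟨w * y, S.mul_mem hw hzS, n, ?_⟩
        rw [mul_assoc, mul_assoc, (Commute.pow_left hctz n).eq]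
    have h2 := closed_closure h1 x hx 1 ⟨1, S.one_mem, 0, by simp⟩
    rw [one_mul] at h2
    obtain ⟨w, hw, n, rfl⟩ := h2
    have h3 : t ^ n = (t ^ b) ^ (n / b) * t ^ (n % b) := by
      rw [← pow_mul, ← pow_add, Nat.div_add_mod]
    obtain ⟨i, hi, e, he⟩ := hSd _ (S.mul_mem hw (S.pow_mem hb (n / b)))
    refine ⟨i, n % b, hi, Nat.mod_lt _ hb0, ?_⟩
    have h5 : w * t ^ n = s ^ i * t ^ (n % b) * z ^ e := by
      rw [h3, ← mul_assoc, he, mul_assoc, mul_assoc,
        (Commute.pow_pow hctz (n % b) e).eq]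
    rcases hzn e with h | h
    · left; rw [h5, h, mul_one]
    · right; rw [h5, h]
  -- distinct columns
  have aux : ∀ i i' j j' e, i < a → i' < a → j ≤ j' → j' < b →
      s ^ i * t ^ j = s ^ i' * t ^ j' * e → e ∈ Z → i = i' ∧ j = j' := by
    intro i i' j j' e hi hi' hjj hj' h he
    have hec : t ^ j' * e = e * t ^ j' := by
      rcases hZd e he with rfl | rfl
      · simp
      · exact (Commute.pow_left hctz j').eq
    have hZS : Z ≤ S := by rw [hZ, Subgroup.zpowers_le]; exact hzS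
    have h1 : t ^ (j' - j) = e⁻¹ * (s ^ i')⁻¹ * s ^ i := by
      have h2 : t ^ j' = t ^ (j' - j) * t ^ j := by rw [← pow_add, Nat.sub_add_cancel hjj]
      have h3 : s ^ i * t ^ j = s ^ i' * e * t ^ (j' - j) * t ^ j := by
        rw [h, mul_assoc, hec, h2]; group
      have h4 := mul_right_cancel h3
      rw [h4]; group
    have hj : j = j' := by
      by_contra hne
      apply hbmin (j' - j) (by omega) (by omega)
      rw [h1]
      exact S.mul_mem (S.mul_mem (S.inv_mem (hZS he)) (S.inv_mem (S.pow_mem hsS _)))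
        (S.pow_mem hsS _)
    refine ⟨?_, hj⟩
    subst hj
    rw [Nat.sub_self, pow_zero] at h1
    have h2 : s ^ i = s ^ i' * e := by
      have : s ^ i' * e * (e⁻¹ * (s ^ i')⁻¹ * s ^ i) = s ^ i' * e * 1 := by rw [← h1]
      rw [mul_one] at this
      rw [← this]; group
    have hcase : ∀ x y, x < y → y < a → s ^ y = s ^ x * e ∨ s ^ y * e = s ^ x → False := by
      intro x y hxy hy h5
      apply hamin (y - x) (by omega) (by omega)
      have h6 : s ^ y = s ^ x * s ^ (y - x) := by rw [← pow_add]; congr 1; omega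
      rcases h5 with h5 | h5
      · rw [h6] at h5
        rw [mul_left_cancel h5]; exact he
      · rw [h6, mul_assoc] at h5
        have h7 : s ^ (y - x) * e = 1 := mul_eq_left.1 h5
        rw [eq_inv_of_mul_eq_one_left h7]
        exact Z.inv_mem he
    rcases lt_trichotomy i i' with h5 | h5 | h5
    · exact (hcase i i' h5 hi' (Or.inr h2.symm)).elim
    · exact h5
    · exact (hcase i' i h5 hi (Or.inl h2)).elim
  have hdist : ∀ i i' j j', i < a → i' < a → j < b → j' < b →
      (s ^ i * t ^ j = s ^ i' * t ^ j' ∨ s ^ i * t ^ j = s ^ i' * t ^ j' * z) →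
      i = i' ∧ j = j' := by
    intro i i' j j' hi hi' hj hj' h
    obtain ⟨e, he, h⟩ : ∃ e ∈ Z, s ^ i * t ^ j = s ^ i' * t ^ j' * e := by
      rcases h with h | h
      · exact ⟨1, Z.one_mem, by rw [h, mul_one]⟩
      · exact ⟨z, Subgroup.mem_zpowers z, h⟩
    rcases le_total j j' with hjj | hjj
    · exact aux i i' j j' e hi hi' hjj hj' h he
    · have h2 : s ^ i' * t ^ j' = s ^ i * t ^ j * e⁻¹ := by rw [h]; group
      obtain ⟨h3, h4⟩ := aux i' i j' j e⁻¹ hi' hi hjj hj h2 (Z.inv_mem he)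
      exact ⟨h3.symm, h4.symm⟩
  -- the number of columns
  have hcardK : Nat.card K = 2 * (a * b) := by
    have hF : Fintype K := Fintype.ofFinite K
    let F : (Fin a × Fin b) × Fin 2 → K := fun x =>
      ⟨s ^ x.1.1.val * t ^ x.1.2.val * z ^ x.2.val,
        K.mul_mem (K.mul_mem (K.pow_mem hsK _) (K.pow_mem htK _)) (K.pow_mem hzK _)⟩
    have hFb : Function.Bijective F := by
      constructor
      · rintro ⟨⟨i, j⟩, e⟩ ⟨⟨i', j'⟩, e'⟩ h
        have h1 : s ^ i.val * t ^ j.val * z ^ e.val = s ^ i'.val * t ^ j'.val * z ^ e'.val :=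
          congrArg Subtype.val h
        have h2 : s ^ i.val * t ^ j.val = s ^ i'.val * t ^ j'.val * (z ^ (e'.val + e.val)) := by
          have hzz : z ^ e.val * z ^ e.val = 1 := by
            rw [← pow_add, ← two_mul, pow_mul, pow_two, hz2, one_pow]
          calc s ^ i.val * t ^ j.val = s ^ i.val * t ^ j.val * (z ^ e.val * z ^ e.val) := by
                rw [hzz, mul_one]
            _ = s ^ i.val * t ^ j.val * z ^ e.val * z ^ e.val := by group
            _ = s ^ i'.val * t ^ j'.val * z ^ e'.val * z ^ e.val := by rw [h1]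
            _ = _ := by rw [mul_assoc, ← pow_add]
        have h3 := hdist i.val i'.val j.val j'.val i.isLt i'.isLt j.isLt j'.isLt (by
          rcases hzn (e'.val + e.val) with h | h
          · left; rw [h2, h, mul_one]
          · right; rw [h2, h])
        have h4 : i = i' := Fin.ext h3.1
        have h5 : j = j' := Fin.ext h3.2
        subst h4
        subst h5
        have h6 : z ^ e.val = z ^ e'.val := mul_left_cancel h1
        have h7 : e = e' := by
          have h8 := e.isLt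
          have h9 := e'.isLt
          apply Fin.ext
          by_contra hne
          have : (e.val = 0 ∧ e'.val = 1) ∨ (e.val = 1 ∧ e'.val = 0) := by omega
          rcases this with ⟨h10, h11⟩ | ⟨h10, h11⟩
          · rw [h10, h11, pow_zero, pow_one] at h6
            exact hz1 h6.symm
          · rw [h10, h11, pow_zero, pow_one] at h6
            exact hz1 h6
        rw [h7]
      · rintro ⟨x, hx⟩
        obtain ⟨i, j, hi, hj, h | h⟩ := hKd x hx
        · refine ⟨((⟨i, hi⟩, ⟨j, hj⟩), 0), ?_⟩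
          apply Subtype.ext
          change s ^ i * t ^ j * z ^ 0 = x
          rw [pow_zero, mul_one, h]
        · refine ⟨((⟨i, hi⟩, ⟨j, hj⟩), 1), ?_⟩
          apply Subtype.ext
          change s ^ i * t ^ j * z ^ 1 = x
          rw [pow_one, h]
    rw [← Nat.card_congr (Equiv.ofBijective F hFb), Nat.card_eq_fintype_card]
    simp only [Fintype.card_prod, Fintype.card_fin]
    ring
  have hev : 2 ∣ a * b := by
    rw [hcardK] at h4
    omega
  have hab : 4 ≤ a * b := by
    calc 4 = 2 * 2 := rfl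
      _ ≤ a * b := Nat.mul_le_mul ha2 hb2
  obtain ⟨c, hc⟩ := tour a b ha2 hb2 hev
  let p : ℕ → G := fun m => s ^ (c m).1 * t ^ (c m).2
  have hstep : ∀ m, m < a * b → (p m)⁻¹ * p (m + 1) ∈ ({s, s⁻¹, t, t⁻¹} : Set G) := by
    intro m hm
    rcases hc.adj m hm with ⟨h1, h2⟩ | ⟨h1, h2⟩
    · rcases h2 with h2 | h2
      · have : (p m)⁻¹ * p (m + 1) = t⁻¹ := by
          simp only [p]
          rw [h1, h2, pow_succ]; group
        rw [this]; simp
      · have : (p m)⁻¹ * p (m + 1) = t := by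
          simp only [p]
          rw [h1, h2, pow_succ]; group
        rw [this]; simp
    · rcases h2 with h2 | h2
      · have : (p m)⁻¹ * p (m + 1) = ((t ^ (c (m + 1)).2)⁻¹ * s * t ^ (c (m + 1)).2)⁻¹ := by
          simp only [p]
          rw [h1, h2, pow_succ]; group
        rw [this]
        rcases hcj (c (m + 1)).2 with h | h <;> rw [h] <;> simp
      · have : (p m)⁻¹ * p (m + 1) = (t ^ (c (m + 1)).2)⁻¹ * s * t ^ (c (m + 1)).2 := by
          simp only [p]
          rw [h1, h2, pow_succ]; group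
        rw [this]
        rcases hcj (c (m + 1)).2 with h | h <;> rw [h] <;> simp
  have hz := zig A z hzA hz2 hz1 K hzK (a * b) (by omega) p ?_ ?_ ?_ ?_ ?_ ?_
  · exact ⟨by rw [hcardK]; omega, hz.2⟩
  · intro m _
    exact K.mul_mem (K.pow_mem hsK _) (K.pow_mem htK _)
  · intro m hm
    rcases hstep m hm with h | h | h | h
    · rw [h]; exact hsA
    · rw [h]; exact hA _ hsA
    · rw [h]; exact htA
    · rw [Set.mem_singleton_iff] at h
      rw [h]; exact hA _ htA
  · intro m hm
    rcases hstep m hm with h | h | h | h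
    · rw [h]; exact hsz
    · rw [h]; exact (Commute.inv_left hcsz).eq
    · rw [h]; exact htz
    · rw [Set.mem_singleton_iff] at h
      rw [h]; exact (Commute.inv_left hctz).eq
  · intro m hm n hn h
    obtain ⟨h1, h2⟩ := hdist _ _ _ _ (hc.mem m hm).1 (hc.mem n hn).1 (hc.mem m hm).2
      (hc.mem n hn).2 h
    exact hc.inj m hm n hn (Prod.ext h1 h2)
  · intro k hk
    obtain ⟨i, j, hi, hj, h⟩ := hKd k hk
    obtain ⟨m, hm, hcm⟩ := hc.surj i j hi hj
    refine ⟨m, hm, ?_⟩
    simp only [p, hcm]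
    exact h
  · have h1 : p (a * b) = 1 := by simp [p, hc.last]
    have h2 : p 0 = 1 := by simp [p, hc.zero]
    obtain ⟨k, hk⟩ := hev
    rw [h1, h2, hk, pow_mul, pow_two, hz2, one_pow, mul_one]

end Pool.Agent.U869.Mg
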